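import Mathlib

/-!
Definitions for problem MP_67fd2b_co.  A partition is its Young diagram, a Mathlib `YoungDiagram`;
the cell `u = (i, j)` of the problem, with `i, j ≥ 1`, is the pair `c = (i - 1, j - 1)`, the part
`λ_i` is `μ.rowLen (i - 1)` and `λ'_j` is `μ.colLen (j - 1)`.
-/

namespace Pool.Agent.MP_67fd2b_co

open Polynomial

/-- The hook length `h(u) = (λ_i - j) + (λ'_j - i) + 1`. -/
def hookLen (μ : YoungDiagram) (c : ℕ × ℕ) : ℤ :=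
  ((μ.rowLen c.1 : ℤ) - (c.2 + 1)) + ((μ.colLen c.2 : ℤ) - (c.1 + 1)) + 1

/-- The symplectic content: `(λ_i - i) + (λ_j - j) + 2` if `i > j`, and
`(i - λ'_i) + (j - λ'_j)` if `i ≤ j`. -/
def cSp (μ : YoungDiagram) (c : ℕ × ℕ) : ℤ :=
  if c.2 < c.1 then
    ((μ.rowLen c.1 : ℤ) - (c.1 + 1)) + ((μ.rowLen c.2 : ℤ) - (c.2 + 1)) + 2
  else
    (((c.1 : ℤ) + 1) - μ.colLen c.1) + (((c.2 : ℤ) + 1) - μ.colLen c.2)

/-- The orthogonal content: `(λ_i - i) + (λ_j - j)` if `i ≥ j`, and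
`(i - λ'_i) + (j - λ'_j) - 2` if `i < j`. -/
def cO (μ : YoungDiagram) (c : ℕ × ℕ) : ℤ :=
  if c.2 ≤ c.1 then
    ((μ.rowLen c.1 : ℤ) - (c.1 + 1)) + ((μ.rowLen c.2 : ℤ) - (c.2 + 1))
  else
    (((c.1 : ℤ) + 1) - μ.colLen c.1) + (((c.2 : ℤ) + 1) - μ.colLen c.2) - 2

/-- The weight `∏_{u ∈ λ} (t + c(u)^2) / h(u)^2` as a polynomial in the indeterminate `t = X`,
for a content function `cont`. -/
noncomputable def weight (cont : YoungDiagram → ℕ × ℕ → ℤ) (μ : YoungDiagram) : ℚ[X] :=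
  ∏ c ∈ μ.cells, (C (((hookLen μ c : ℚ) ^ 2)⁻¹) * (X + C ((cont μ c : ℚ) ^ 2)))

/-- The generating function `∑_λ x^|λ| w(λ; t)`, a power series in `x` over `ℚ[t]`. -/
noncomputable def genSeries (cont : YoungDiagram → ℕ × ℕ → ℤ) : PowerSeries ℚ[X] :=
  PowerSeries.mk fun n => ∑ᶠ μ ∈ {μ : YoungDiagram | μ.card = n}, weight cont μ

/-- The binomial coefficient `t (t-1) ⋯ (t-r+1) / r!` as a polynomial in `t`. -/
noncomputable def binomPoly (r : ℕ) : ℚ[X] :=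
  C ((r.factorial : ℚ)⁻¹) * ∏ i ∈ Finset.range r, (X - C (i : ℚ))

/-- The binomial series `(1 - x^j)^t = ∑_r (t choose r) (-1)^r x^(j r)` for `j ≥ 1`. -/
noncomputable def oneSubPow (j : ℕ) : PowerSeries ℚ[X] :=
  PowerSeries.mk fun m => if j ∣ m then (-1) ^ (m / j) * binomPoly (m / j) else 0

end Pool.Agent.MP_67fd2b_co
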