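import Mathlib

namespace Pool.Agent.MP_67fd2b_co

open Finset

variable {K : Type*} [Field K] {N : ℕ}

/-- tuples with sum `M` -/
def S (N M : ℕ) : Finset (Fin N → ℕ) := piAntidiag univ M

theorem mem_S {M : ℕ} {l : Fin N → ℕ} : l ∈ S N M ↔ ∑ i, l i = M := by
  simp [S]

/-- multiplication by a power sum, adjoint version -/
def Up (k : ℕ) (g : (Fin N → ℕ) → K) (l : Fin N → ℕ) : K :=
  ∑ i, g (Function.update l i (l i + k))

/-- multiplication by a power sum -/
def Dn (k : ℕ) (g : (Fin N → ℕ) → K) (l : Fin N → ℕ) : K :=
  ∑ i, if k ≤ l i then g (Function.update l i (l i - k)) else 0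

/-- the pairing on tuples of sum `M` -/
def pr (M : ℕ) (g h : (Fin N → ℕ) → K) : K := ∑ l ∈ S N M, g l * h l

theorem pr_comm (M : ℕ) (g h : (Fin N → ℕ) → K) : pr M g h = pr M h g :=
  Finset.sum_congr rfl fun _ _ => mul_comm _ _

theorem sum_update_add (l : Fin N → ℕ) (i : Fin N) (k : ℕ) :
    ∑ j, Function.update l i (l i + k) j = ∑ j, l j + k := by
  rw [← Finset.add_sum_erase univ _ (Finset.mem_univ i), ← Finset.add_sum_erase univ l (Finset.mem_univ i)]
  rw [Function.update_self]
  have : ∑ x ∈ univ.erase i, Function.update l i (l i + k) x = ∑ x ∈ univ.erase i, l x :=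
    Finset.sum_congr rfl fun j hj => by rw [Function.update_of_ne (Finset.mem_erase.mp hj).1]
  rw [this]; ring

theorem update_up_down (l : Fin N → ℕ) (i : Fin N) (k : ℕ) (hk : k ≤ l i) :
    Function.update (Function.update l i (l i - k)) i
      ((Function.update l i (l i - k)) i + k) = l := by
  rw [Function.update_self, Function.update_idem, Nat.sub_add_cancel hk, Function.update_eq_self]

theorem update_down_up (l : Fin N → ℕ) (i : Fin N) (k : ℕ) :
    Function.update (Function.update l i (l i + k)) i
      ((Function.update l i (l i + k)) i - k) = l := by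
  rw [Function.update_self, Function.update_idem, Nat.add_sub_cancel, Function.update_eq_self]

theorem adj (M k : ℕ) (g h : (Fin N → ℕ) → K) :
    pr (M + k) g (Dn k h) = pr M (Up k g) h := by
  unfold pr Dn Up
  simp only [Finset.mul_sum, Finset.sum_mul]
  rw [Finset.sum_comm]
  rw [Finset.sum_comm (s := S N M)]
  refine Finset.sum_congr rfl fun i _ => ?_
  simp only [mul_ite, mul_zero]
  rw [← Finset.sum_filter]
  refine Finset.sum_nbij' (fun l => Function.update l i (l i - k))
    (fun l => Function.update l i (l i + k)) ?_ ?_ ?_ ?_ ?_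
  · intro l hl
    rw [Finset.mem_filter, mem_S] at hl
    rw [mem_S]
    have h1 := sum_update_add (Function.update l i (l i - k)) i k
    rw [update_up_down l i k hl.2, hl.1] at h1
    omega
  · intro l hl
    rw [mem_S] at hl
    rw [Finset.mem_filter, mem_S, sum_update_add, hl, Function.update_self]
    exact ⟨rfl, Nat.le_add_left _ _⟩
  · intro l hl
    rw [Finset.mem_filter, mem_S] at hl
    exact update_up_down l i k hl.2
  · intro l _
    exact update_down_up l i k
  · intro l hl
    rw [Finset.mem_filter, mem_S] at hl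
    rw [update_up_down l i k hl.2]

theorem adj_lt (M k : ℕ) (hMk : M < k) (g h : (Fin N → ℕ) → K) :
    pr M g (Dn k h) = 0 := by
  unfold pr Dn
  refine Finset.sum_eq_zero fun l hl => ?_
  rw [mem_S] at hl
  rw [Finset.sum_eq_zero, mul_zero]
  intro i _
  rw [if_neg]
  have : l i ≤ ∑ j, l j := Finset.single_le_sum (fun _ _ => Nat.zero_le _) (Finset.mem_univ i)
  omega

/-- antisymmetric functions -/
def Anti (g : (Fin N → ℕ) → K) : Prop :=
  ∀ (l : Fin N → ℕ) (i j : Fin N), i ≠ j → g (l ∘ Equiv.swap i j) = - g l

theorem Anti.zero [CharZero K] {g : (Fin N → ℕ) → K} (hg : Anti g) {l : Fin N → ℕ}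
    (hl : ¬ Function.Injective l) : g l = 0 := by
  rw [Function.not_injective_iff] at hl
  obtain ⟨i, j, hij, hne⟩ := hl
  have h := hg l i j hne
  have : l ∘ Equiv.swap i j = l := by
    funext x
    simp only [Function.comp]
    by_cases hx : x = i
    · subst hx; rw [Equiv.swap_apply_left, hij]
    · by_cases hx' : x = j
      · subst hx'; rw [Equiv.swap_apply_right, hij]
      · rw [Equiv.swap_apply_of_ne_of_ne hx hx']
  rw [this] at h
  have h2 : (2 : K) * g l = 0 := by linear_combination h
  rcases mul_eq_zero.mp h2 with h | h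
  · exact absurd h two_ne_zero
  · exact h

theorem update_comp_swap (l : Fin N → ℕ) (i j x : Fin N) (t : ℕ) :
    Function.update (l ∘ Equiv.swap i j) x t
      = Function.update l (Equiv.swap i j x) t ∘ Equiv.swap i j := by
  funext y
  by_cases hy : y = x
  · subst hy; simp
  · rw [Function.update_of_ne hy]
    simp only [Function.comp]
    rw [Function.update_of_ne]
    intro h
    exact hy ((Equiv.swap i j).injective h)

theorem Anti.up {g : (Fin N → ℕ) → K} (hg : Anti g) (k : ℕ) : Anti (Up k g) := by
  intro l i j hij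
  unfold Up
  rw [← Equiv.sum_comp (Equiv.swap i j), ← Finset.sum_neg_distrib]
  refine Finset.sum_congr rfl fun x _ => ?_
  rw [update_comp_swap, hg _ i j hij]
  simp

theorem Anti.dn {g : (Fin N → ℕ) → K} (hg : Anti g) (k : ℕ) : Anti (Dn k g) := by
  intro l i j hij
  unfold Dn
  rw [← Equiv.sum_comp (Equiv.swap i j), ← Finset.sum_neg_distrib]
  refine Finset.sum_congr rfl fun x _ => ?_
  rw [update_comp_swap, hg _ i j hij]
  simp only [Function.comp, Equiv.swap_apply_self]
  split_ifs <;> simp

/-- distinct naturals have large sum -/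
theorem sum_distinct (s : Finset ℕ) : s.card * (s.card - 1) ≤ 2 * ∑ x ∈ s, x := by
  have h := Finset.sum_range_le_sum (s := s.map Nat.castEmbedding) (c := 0)
    (by intro x hx; simp at hx; obtain ⟨a, _, rfl⟩ := hx; positivity)
  simp only [Finset.card_map, zero_add, Finset.sum_map, Nat.castEmbedding_apply] at h
  have h' : ∑ n ∈ range s.card, n ≤ ∑ x ∈ s, x := by
    zify; exact h
  have := Finset.sum_range_id_mul_two s.card
  omega

theorem level {M k : ℕ} {l : Fin N → ℕ} (hl : Function.Injective l) (hM : l ∈ S N M)
    (hMk : 2 * M + 2 * k ≤ N * (N - 1) + 2 * N) : ∀ s < k, ∃ j, l j = s := by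
  intro s hs
  by_contra hcon
  push Not at hcon
  rw [mem_S] at hM
  have hnot : s ∉ (univ.image l) := by
    simp only [Finset.mem_image, Finset.mem_univ, true_and, not_exists]
    exact fun x => hcon x
  have h := sum_distinct (insert s (univ.image l))
  rw [Finset.card_insert_of_notMem hnot, Finset.card_image_of_injective _ hl, Finset.card_univ,
    Fintype.card_fin, Finset.sum_insert hnot, Finset.sum_image (fun a _ b _ h => hl h), hM] at h
  simp only [Nat.add_sub_cancel] at h
  have : (N + 1) * N = N * (N - 1) + 2 * N := by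
    rcases N with _ | n
    · rfl
    · simp only [Nat.add_sub_cancel]; ring
  omega

theorem level_zero {M : ℕ} {l : Fin N → ℕ} (hl : Function.Injective l) (hM : l ∈ S N M) :
    N * (N - 1) ≤ 2 * M := by
  rw [mem_S] at hM
  have h := sum_distinct (univ.image l)
  rw [Finset.card_image_of_injective _ hl, Finset.card_univ,
    Fintype.card_fin, Finset.sum_image (fun a _ b _ h => hl h), hM] at h
  exact h

theorem card_lt {k : ℕ} {l : Fin N → ℕ} (hl : Function.Injective l)
    (h : ∀ s < k, ∃ j, l j = s) : (univ.filter (fun i => ¬ k ≤ l i)).card = k := by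
  have : (univ.filter (fun i => ¬ k ≤ l i)).image l = range k := by
    ext s
    simp only [Finset.mem_image, Finset.mem_filter, Finset.mem_univ, true_and, Finset.mem_range,
      not_le]
    constructor
    · rintro ⟨a, ha, rfl⟩; exact ha
    · intro hs
      obtain ⟨j, hj⟩ := h s hs
      exact ⟨j, by omega, hj⟩
  rw [← Finset.card_image_of_injective _ hl, this, Finset.card_range]

end Pool.Agent.MP_67fd2b_co
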