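import Mathlib
import Pool.Agent.MP_67fd2b_co.Pair

namespace Pool.Agent.MP_67fd2b_co

open Finset

variable {K : Type*} [Field K] {N : ℕ}

theorem commutator (k : ℕ) (g : (Fin N → ℕ) → K) (l : Fin N → ℕ) :
    Up k (Dn k g) l = Dn k (Up k g) l + ((univ.filter (fun i => ¬ k ≤ l i)).card : K) * g l := by
  unfold Up Dn
  rw [Finset.sum_comm]
  have hcard : ((univ.filter (fun i => ¬ k ≤ l i)).card : K) * g l
      = ∑ i, (if k ≤ l i then 0 else g l) := by
    rw [← nsmul_eq_mul, ← Finset.sum_const, Finset.sum_filter]
    refine Finset.sum_congr rfl fun i _ => ?_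
    split_ifs <;> simp_all
  rw [hcard, ← Finset.sum_add_distrib]
  refine Finset.sum_congr rfl fun i _ => ?_
  rw [← Finset.add_sum_erase univ _ (Finset.mem_univ i)]
  have h0 : (if k ≤ Function.update l i (l i + k) i then
      g (Function.update (Function.update l i (l i + k)) i
        (Function.update l i (l i + k) i - k)) else 0) = g l := by
    rw [update_down_up, Function.update_self, if_pos (Nat.le_add_left _ _)]
  rw [h0]
  have h1 : ∑ x ∈ univ.erase i, (if k ≤ Function.update l x (l x + k) i then
      g (Function.update (Function.update l x (l x + k)) i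
        (Function.update l x (l x + k) i - k)) else 0)
      = if k ≤ l i then ∑ x ∈ univ.erase i, g (Function.update (Function.update l i (l i - k)) x
          ((Function.update l i (l i - k)) x + k)) else 0 := by
    split_ifs with hk
    · refine Finset.sum_congr rfl fun x hx => ?_
      have hxi : x ≠ i := (Finset.mem_erase.mp hx).1
      rw [Function.update_of_ne hxi.symm, if_pos hk, Function.update_of_ne hxi,
        Function.update_comm hxi]
    · refine Finset.sum_eq_zero fun x hx => ?_
      have hxi : x ≠ i := (Finset.mem_erase.mp hx).1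
      rw [Function.update_of_ne hxi.symm, if_neg hk]
  rw [h1]
  split_ifs with hk
  · show _ = (∑ x, g (Function.update (Function.update l i (l i - k)) x
          ((Function.update l i (l i - k)) x + k))) + 0
    rw [← Finset.add_sum_erase univ (fun x => g (Function.update (Function.update l i (l i - k)) x
          ((Function.update l i (l i - k)) x + k))) (Finset.mem_univ i)]
    rw [update_up_down l i k hk]; ring
  · ring

/-- the diagonal sums vanish -/
theorem phi_sum [CharZero K] {g : (Fin N → ℕ) → K} (hg : Anti g) (l : Fin N → ℕ) (i j : Fin N)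
    (hij : i ≠ j) (s : ℕ) :
    ∑ m ∈ range (s + 1), g (Function.update (Function.update l i m) j (s - m)) = 0 := by
  have h : ∑ m ∈ range (s + 1), g (Function.update (Function.update l i m) j (s - m))
      = - ∑ m ∈ range (s + 1), g (Function.update (Function.update l i m) j (s - m)) := by
    conv_lhs => rw [← Finset.sum_range_reflect]
    rw [← Finset.sum_neg_distrib]
    refine Finset.sum_congr rfl fun m hm => ?_
    have hm' : m ≤ s := by have := Finset.mem_range.mp hm; omega
    have e1 : s + 1 - 1 - m = s - m := by omega
    have e2 : s - (s - m) = m := by omega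
    rw [e1, e2]
    rw [← hg _ i j hij]
    congr 1
    funext x
    simp only [Function.comp]
    by_cases hx : x = i
    · subst hx; rw [Equiv.swap_apply_left]; simp [hij]
    · by_cases hx' : x = j
      · subst hx'; rw [Equiv.swap_apply_right]; simp [hij]
      · rw [Equiv.swap_apply_of_ne_of_ne hx hx']
        simp [hx, hx']
  have h2 : (2 : K) * ∑ m ∈ range (s + 1), g (Function.update (Function.update l i m) j (s - m)) = 0 := by
    linear_combination h
  rcases mul_eq_zero.mp h2 with h | h
  · exact absurd h two_ne_zero
  · exact h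

/-- off-diagonal transfer sum -/
def TT (M : ℕ) (g : (Fin N → ℕ) → K) (l : Fin N → ℕ) (i j : Fin N) : K :=
  ∑ k ∈ Icc 1 M, if k ≤ l i then g (Function.update (Function.update l i (l i - k)) j
    (l j + k)) else 0

theorem TT_eq (M : ℕ) (g : (Fin N → ℕ) → K) (l : Fin N → ℕ) (i j : Fin N) (hM : l i ≤ M) :
    TT M g l i j = ∑ k ∈ Icc 1 (l i), g (Function.update (Function.update l i (l i - k)) j
    (l j + k)) := by
  unfold TT
  rw [← Finset.sum_filter]
  refine Finset.sum_congr ?_ fun _ _ => rfl
  ext k; simp only [Finset.mem_filter, Finset.mem_Icc]; omega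

theorem TT_add [CharZero K] {M : ℕ} {g : (Fin N → ℕ) → K} (hg : Anti g) (l : Fin N → ℕ)
    (i j : Fin N) (hij : i ≠ j) (hi : l i ≤ M) (hj : l j ≤ M) :
    TT M g l i j + TT M g l j i = - g l := by
  rw [TT_eq M g l i j hi, TT_eq M g l j i hj]
  have h := phi_sum hg l i j hij (l i + l j)
  rw [← Finset.sum_range_add_sum_Ico _ (show l i ≤ l i + l j + 1 by omega)] at h
  have hsplit : ∑ m ∈ Ico (l i) (l i + l j + 1),
      g (Function.update (Function.update l i m) j (l i + l j - m))
      = g l + ∑ k ∈ Icc 1 (l j), g (Function.update (Function.update l j (l j - k)) i (l i + k)) := by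
    rw [Finset.sum_Ico_eq_sum_range]
    have : l i + l j + 1 - l i = l j + 1 := by omega
    rw [this, Finset.sum_range_succ']
    rw [add_comm]
    congr 1
    · congr 1
      simp
    · rw [Finset.range_eq_Ico, Finset.sum_Ico_add' (fun k => g (Function.update
        (Function.update l i (l i + k)) j (l i + l j - (l i + k)))) 0 (l j) 1]
      refine Finset.sum_congr ?_ fun k hk => ?_
      · ext k; simp only [Finset.mem_Ico, Finset.mem_Icc]; omega
      · rw [Finset.mem_Icc] at hk
        rw [Function.update_comm hij]
        congr 3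
        omega
  rw [hsplit] at h
  have h1 : ∑ k ∈ Icc 1 (l i), g (Function.update (Function.update l i (l i - k)) j (l j + k))
      = ∑ m ∈ range (l i), g (Function.update (Function.update l i m) j (l i + l j - m)) := by
    refine Finset.sum_nbij' (fun k => l i - k) (fun m => l i - m) ?_ ?_ ?_ ?_ ?_
    · intro k hk
      simp only [Finset.mem_Icc, Finset.mem_range] at hk ⊢
      omega
    · intro k hk
      simp only [Finset.mem_Icc, Finset.mem_range] at hk ⊢
      omega
    · intro k hk
      simp only [Finset.mem_Icc] at hk
      omega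
    · intro k hk
      simp only [Finset.mem_range] at hk
      omega
    · intro k hk
      simp only [Finset.mem_Icc] at hk
      congr 2
      omega
  rw [h1]
  linear_combination h

/-- the degree operator as a sum of products of power sum operators -/
theorem degree_id [CharZero K] {M : ℕ} {g : (Fin N → ℕ) → K} (hg : Anti g) {l : Fin N → ℕ}
    (hl : l ∈ S N M) :
    ∑ k ∈ Icc 1 M, Dn k (Up k g) l = ((M : K) - N * (N - 1) / 2) * g l := by
  have hle : ∀ i, l i ≤ M := by
    intro i
    rw [mem_S] at hl
    rw [← hl]
    exact Finset.single_le_sum (fun _ _ => Nat.zero_le _) (Finset.mem_univ i)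
  have h1 : ∀ k, Dn k (Up k g) l = ∑ i, ((if k ≤ l i then g l else 0) +
      ∑ j ∈ univ.erase i, (if k ≤ l i then g (Function.update (Function.update l i (l i - k)) j
        (l j + k)) else 0)) := by
    intro k
    unfold Dn Up
    refine Finset.sum_congr rfl fun i _ => ?_
    split_ifs with hk
    · rw [← Finset.add_sum_erase univ _ (Finset.mem_univ i), update_up_down l i k hk]
      congr 1
      refine Finset.sum_congr rfl fun j hj => ?_
      rw [Function.update_of_ne (Finset.mem_erase.mp hj).1]
    · simp
  simp only [h1]
  rw [Finset.sum_comm]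
  have h2 : ∀ i, ∑ k ∈ Icc 1 M, ((if k ≤ l i then g l else 0) +
      ∑ j ∈ univ.erase i, (if k ≤ l i then g (Function.update (Function.update l i (l i - k)) j
        (l j + k)) else 0)) = (l i : K) * g l + ∑ j ∈ univ.erase i, TT M g l i j := by
    intro i
    rw [Finset.sum_add_distrib, Finset.sum_comm]
    congr 1
    rw [← Finset.sum_filter, Finset.sum_const, nsmul_eq_mul]
    congr 2
    have : (Icc 1 M).filter (fun k => k ≤ l i) = Icc 1 (l i) := by
      ext k; simp only [Finset.mem_filter, Finset.mem_Icc]; have := hle i; omega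
    rw [this]; simp
  simp only [h2]
  rw [Finset.sum_add_distrib, ← Finset.sum_mul]
  have h3 : (∑ i, (l i : K)) = M := by
    rw [mem_S] at hl; rw [← hl]; push_cast; rfl
  rw [h3]
  have h4 : (2 : K) * ∑ i, ∑ j ∈ univ.erase i, TT M g l i j = - ((N : K) * (N - 1)) * g l := by
    have hsw : ∑ i, ∑ j ∈ univ.erase i, TT M g l i j = ∑ i, ∑ j ∈ univ.erase i, TT M g l j i := by
      have e : ∀ (f : Fin N → Fin N → K), ∑ i, ∑ j ∈ univ.erase i, f i j
          = ∑ i, ∑ j, if j ≠ i then f i j else 0 := by
        intro f
        refine Finset.sum_congr rfl fun i _ => ?_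
        rw [← Finset.sum_filter]
        refine Finset.sum_congr ?_ fun _ _ => rfl
        ext j; simp
      rw [e, e, Finset.sum_comm]
      refine Finset.sum_congr rfl fun i _ => Finset.sum_congr rfl fun j _ => ?_
      simp only [ne_comm]
    have : (2 : K) * ∑ i, ∑ j ∈ univ.erase i, TT M g l i j
        = ∑ i, ∑ j ∈ univ.erase i, (TT M g l i j + TT M g l j i) := by
      rw [two_mul]
      conv_lhs => rw [hsw, ← hsw]
      conv_lhs => enter [2]; rw [hsw]
      rw [← Finset.sum_add_distrib]
      refine Finset.sum_congr rfl fun i _ => ?_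
      rw [← Finset.sum_add_distrib]
    rw [this]
    have h5 : ∀ i, ∑ j ∈ univ.erase i, (TT M g l i j + TT M g l j i) = - ((N : K) - 1) * g l := by
      intro i
      rw [Finset.sum_congr rfl fun j hj => TT_add hg l i j
        (Finset.mem_erase.mp hj).1.symm (hle i) (hle j)]
      rw [Finset.sum_const, Finset.card_erase_of_mem (Finset.mem_univ i), Finset.card_univ,
        Fintype.card_fin, nsmul_eq_mul, Nat.cast_sub (by have := i.2; omega)]
      push_cast; ring
    simp only [h5]
    rw [Finset.sum_const, Finset.card_univ, Fintype.card_fin, nsmul_eq_mul]; ring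
  have h6 : ∑ i, ∑ j ∈ univ.erase i, TT M g l i j = - ((N : K) * (N - 1)) / 2 * g l := by
    have h2' : (2 : K) ≠ 0 := two_ne_zero
    field_simp
    linear_combination h4
  rw [h6]; ring

end Pool.Agent.MP_67fd2b_co
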