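import Mathlib
import Pool.Agent.MP_67fd2b_co.Pair2

namespace Pool.Agent.MP_67fd2b_co

open Finset

variable {K : Type*} [Field K] {N : ℕ}

/-- parity indicator -/
def ep (k : ℕ) : K := if Even k then 1 else 0

/-- the coefficients of the resolved recurrence -/
def rr (z : K) (k j : ℕ) : K :=
  (if Even j then (k : K) else 0) - ep k * (-1) ^ j * j - z ^ 2 * j

/-- `∑_j c (j+1) F (M - (j+1) k)` -/
def T (F : ℕ → K) (c : ℕ → K) (k M : ℕ) : K :=
  ∑ j ∈ range (M / k), c (j + 1) * F (M - (j + 1) * k)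

theorem T_add (F : ℕ → K) (c : ℕ → K) {k : ℕ} (hk : 0 < k) (M : ℕ) :
    T F c k (M + k) = c 1 * F M + T F (fun j => c (j + 1)) k M := by
  unfold T
  rw [Nat.add_div_right _ hk, Finset.sum_range_succ', add_comm]
  congr 1
  · simp
  · refine Finset.sum_congr rfl fun j _ => ?_
    congr 2
    rw [add_mul (j + 1) 1 k]; omega

theorem T_lt (F : ℕ → K) (c : ℕ → K) {k M : ℕ} (h : M < k) : T F c k M = 0 := by
  unfold T
  rw [Nat.div_eq_of_lt h]; simp

theorem T_lin (F : ℕ → K) (c d e : ℕ → K) (x y w : K) (f : ℕ → K) (k M : ℕ)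
    (h : ∀ j, 0 < j → f j = x * c j + y * d j + w * e j) :
    T F f k M = x * T F c k M + y * T F d k M + w * T F e k M := by
  unfold T
  rw [Finset.mul_sum, Finset.mul_sum, Finset.mul_sum, ← Finset.sum_add_distrib,
    ← Finset.sum_add_distrib]
  refine Finset.sum_congr rfl fun j _ => ?_
  rw [h (j + 1) (Nat.succ_pos j)]; ring

section
variable {g h : (Fin N → ℕ) → K} {A B : K} {k : ℕ}

theorem rel1 {M : ℕ} (hW : ∀ l ∈ S N M, Up k g l + Dn k g l = A * g l) :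
    pr (M + k) g (Dn k h) = A * pr M g h - pr M (Dn k g) h := by
  rw [adj]
  unfold pr
  rw [Finset.mul_sum, ← Finset.sum_sub_distrib]
  refine Finset.sum_congr rfl fun l hl => ?_
  linear_combination h l * hW l hl

theorem rel3 {M : ℕ} (hWg : ∀ l ∈ S N M, Up k g l + Dn k g l = A * g l)
    (hWh : ∀ l ∈ S N M, Up k h l + Dn k h l = B * h l) :
    pr M (Up k g) (Up k h) = A * B * pr M g h - A * pr M g (Dn k h) - B * pr M (Dn k g) h
      + pr M (Dn k g) (Dn k h) := by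
  unfold pr
  rw [Finset.mul_sum, Finset.mul_sum, Finset.mul_sum, ← Finset.sum_sub_distrib,
    ← Finset.sum_sub_distrib, ← Finset.sum_add_distrib]
  refine Finset.sum_congr rfl fun l hl => ?_
  have h1 : Up k g l = A * g l - Dn k g l := by linear_combination hWg l hl
  have h2 : Up k h l = B * h l - Dn k h l := by linear_combination hWh l hl
  rw [h1, h2]; ring

theorem rel4 [CharZero K] (hg : Anti g) {M : ℕ}
    (hMk : 2 * M + 2 * k ≤ N * (N - 1) + 2 * N) :
    pr (M + k) (Dn k g) (Dn k h) = pr M (Dn k (Up k g)) h + k * pr M g h := by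
  rw [adj]
  unfold pr
  rw [Finset.mul_sum, ← Finset.sum_add_distrib]
  refine Finset.sum_congr rfl fun l hl => ?_
  rw [commutator]
  by_cases hinj : Function.Injective l
  · rw [card_lt hinj (level hinj hl hMk)]; ring
  · rw [hg.zero hinj]; ring

/-- `e` -/
def ee (g h : (Fin N → ℕ) → K) (k M : ℕ) : K :=
  if k ≤ M then pr (M - k) (Up k g) (Up k h) else 0

theorem rel5 (M : ℕ) : pr M (Dn k (Up k g)) h = ee g h k M := by
  unfold ee
  split_ifs with hk
  · obtain ⟨M', rfl⟩ := Nat.exists_eq_add_of_le' hk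
    rw [pr_comm, adj, pr_comm, Nat.add_sub_cancel]
  · rw [pr_comm, adj_lt _ _ (not_le.mp hk)]

theorem solve [CharZero K] (hg : Anti g) (hk : 0 < k)
    (hWg : ∀ M, 2 * M + 2 * k ≤ N * (N - 1) + 2 * N → ∀ l ∈ S N M, Up k g l + Dn k g l = A * g l)
    (hWh : ∀ M, 2 * M + 2 * k ≤ N * (N - 1) + 2 * N → ∀ l ∈ S N M, Up k h l + Dn k h l = B * h l)
    (α β σ r : ℕ → K) (hα1 : α 1 = A) (hβ1 : β 1 = B) (hσ1 : σ 1 = k) (hr1 : r 1 = A * B)
    (hα : ∀ j, 0 < j → α (j + 1) = - β j) (hβ : ∀ j, 0 < j → β (j + 1) = - α j)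
    (hσ : ∀ j, 0 < j → σ (j + 1) = r j)
    (hr : ∀ j, 0 < j → r (j + 1) = - A * α j - B * β j + σ j) :
    ∀ M, 2 * M ≤ N * (N - 1) + 2 * N →
      pr M g (Dn k h) = T (fun M => pr M g h) α k M ∧
      pr M (Dn k g) h = T (fun M => pr M g h) β k M ∧
      pr M (Dn k g) (Dn k h) = T (fun M => pr M g h) σ k M ∧
      ee g h k M = T (fun M => pr M g h) r k M := by
  intro M
  induction M using Nat.strong_induction_on with
  | _ M ih =>
    intro hM
    rcases lt_or_ge M k with hlt | hge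
    · refine ⟨?_, ?_, ?_, ?_⟩
      · rw [T_lt _ _ hlt, adj_lt _ _ hlt]
      · rw [T_lt _ _ hlt, pr_comm, adj_lt _ _ hlt]
      · rw [T_lt _ _ hlt, adj_lt _ _ hlt]
      · rw [T_lt _ _ hlt, ee, if_neg (not_le.mpr hlt)]
    · obtain ⟨M', rfl⟩ := Nat.exists_eq_add_of_le' hge
      have hM' : 2 * M' + 2 * k ≤ N * (N - 1) + 2 * N := by omega
      obtain ⟨h1, h2, h3, h4⟩ := ih M' (by omega) (by omega)
      simp only [T_add _ _ hk]
      refine ⟨?_, ?_, ?_, ?_⟩
      · rw [rel1 (hWg M' hM'), h2, hα1]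
        rw [T_lin (fun M => pr M g h) β (fun _ => 0) (fun _ => 0) (-1) 0 0 (fun j => α (j + 1)) k M'
          (by intro j hj; rw [hα j hj]; ring)]
        ring
      · rw [pr_comm, rel1 (hWh M' hM'), pr_comm M' h g, pr_comm M' (Dn k h) g, h1, hβ1]
        rw [T_lin (fun M => pr M g h) α (fun _ => 0) (fun _ => 0) (-1) 0 0 (fun j => β (j + 1)) k M'
          (by intro j hj; rw [hβ j hj]; ring)]
        ring
      · rw [rel4 hg hM', rel5, h4, hσ1]
        rw [T_lin (fun M => pr M g h) r (fun _ => 0) (fun _ => 0) 1 0 0 (fun j => σ (j + 1)) k M'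
          (by intro j hj; rw [hσ j hj]; ring)]
        ring
      · rw [ee, if_pos hge, Nat.add_sub_cancel, rel3 (hWg M' hM') (hWh M' hM'), h1, h2, h3, hr1]
        rw [T_lin (fun M => pr M g h) α β σ (-A) (-B) 1 (fun j => r (j + 1)) k M'
          (by intro j hj; rw [hr j hj]; ring)]
        ring

end

theorem degree_pr [CharZero K] {g h : (Fin N → ℕ) → K} (hg : Anti g) (M : ℕ) :
    ((M : K) - N * (N - 1) / 2) * pr M g h = ∑ k ∈ Icc 1 M, ee g h k M := by
  have : ∀ k, ee g h k M = ∑ l ∈ S N M, Dn k (Up k g) l * h l := fun k => (rel5 M).symm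
  simp only [this]
  rw [Finset.sum_comm]
  unfold pr
  rw [Finset.mul_sum]
  refine Finset.sum_congr rfl fun l hl => ?_
  rw [← Finset.sum_mul, degree_id hg hl]; ring

/-- regrouping a double sum by the product of the indices -/
theorem regroup (F : ℕ → K) (r : ℕ → ℕ → K) (M : ℕ) :
    ∑ k ∈ Icc 1 M, T F (r k) k M
      = ∑ n ∈ Icc 1 M, (∑ k ∈ n.divisors, r k (n / k)) * F (M - n) := by
  simp only [T, Finset.sum_mul]
  rw [Finset.sum_sigma', Finset.sum_sigma']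
  refine Finset.sum_nbij' (fun x => ⟨(x.2 + 1) * x.1, x.1⟩) (fun x => ⟨x.2, x.1 / x.2 - 1⟩)
    ?_ ?_ ?_ ?_ ?_
  · rintro ⟨k, j⟩ h
    simp only [Finset.mem_sigma, Finset.mem_Icc, Finset.mem_range, Nat.mem_divisors] at h ⊢
    obtain ⟨⟨hk1, hk2⟩, hj⟩ := h
    have h1 : (j + 1) * k ≤ M := by
      calc (j + 1) * k ≤ (M / k) * k := Nat.mul_le_mul_right _ hj
        _ ≤ M := Nat.div_mul_le_self _ _
    have h2 : 1 ≤ (j + 1) * k := Nat.mul_pos (Nat.succ_pos _) hk1
    exact ⟨⟨h2, h1⟩, Dvd.intro_left _ rfl, by omega⟩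
  · rintro ⟨n, k⟩ h
    simp only [Finset.mem_sigma, Finset.mem_Icc, Finset.mem_range, Nat.mem_divisors] at h ⊢
    obtain ⟨⟨hn1, hn2⟩, hkn, hn0⟩ := h
    have hk : 0 < k := Nat.pos_of_dvd_of_pos hkn hn1
    have hk' : k ≤ n := Nat.le_of_dvd hn1 hkn
    have h1 : 0 < n / k := Nat.div_pos hk' hk
    have h2 : n / k ≤ M / k := Nat.div_le_div_right hn2
    exact ⟨⟨hk, by omega⟩, by omega⟩
  · rintro ⟨k, j⟩ h
    simp only [Finset.mem_sigma, Finset.mem_Icc, Finset.mem_range] at h ⊢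
    obtain ⟨⟨hk1, hk2⟩, hj⟩ := h
    rw [Nat.mul_div_cancel _ hk1, Nat.add_sub_cancel]
  · rintro ⟨n, k⟩ h
    simp only [Finset.mem_sigma, Finset.mem_Icc, Nat.mem_divisors] at h ⊢
    obtain ⟨⟨hn1, hn2⟩, hkn, hn0⟩ := h
    have hk : 0 < k := Nat.pos_of_dvd_of_pos hkn hn1
    have hk' : k ≤ n := Nat.le_of_dvd hn1 hkn
    have h1 : 0 < n / k := Nat.div_pos hk' hk
    rw [Nat.sub_add_cancel h1, Nat.div_mul_cancel hkn]
  · rintro ⟨k, j⟩ h
    simp only [Finset.mem_sigma, Finset.mem_Icc, Finset.mem_range] at h ⊢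
    obtain ⟨⟨hk1, hk2⟩, hj⟩ := h
    rw [Nat.mul_div_cancel _ hk1]

end Pool.Agent.MP_67fd2b_co
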