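import Mathlib

namespace Pool.Agent.MP_67fd2b_co

open Polynomial Finset

/-- Sum of residues at the nodes `v i` of the rational function
`∏ (X - a j) / ∏ (X - v i)`. -/
theorem resid {ι κ K : Type*} [Field K] [DecidableEq ι] (s : Finset ι) (t : Finset κ)
    (hst : s.card = t.card) (v : ι → K) (a : κ → K) (hv : Set.InjOn v s) :
    ∑ i ∈ s, (∏ j ∈ t, (v i - a j)) / ∏ j ∈ s.erase i, (v i - v j)
      = ∑ i ∈ s, v i - ∑ j ∈ t, a j := by
  rcases s.eq_empty_or_nonempty with hs | hs
  · subst hs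
    have ht : t = ∅ := by
      rw [← Finset.card_eq_zero, ← hst]; simp
    subst ht
    simp
  have hpos : 0 < s.card := hs.card_pos
  set A : K[X] := ∏ j ∈ t, (X - C (a j)) with hA
  set B : K[X] := ∏ i ∈ s, (X - C (v i)) with hB
  have hAm : A.Monic := monic_prod_of_monic _ _ (fun i _ => monic_X_sub_C _)
  have hBm : B.Monic := monic_prod_of_monic _ _ (fun i _ => monic_X_sub_C _)
  have hAd : A.degree = t.card := by
    rw [degree_eq_natDegree hAm.ne_zero, hA, natDegree_prod_of_monic _ _ (fun i _ => monic_X_sub_C _)]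
    simp
  have hBd : B.degree = s.card := by
    rw [degree_eq_natDegree hBm.ne_zero, hB, natDegree_prod_of_monic _ _ (fun i _ => monic_X_sub_C _)]
    simp
  have hlt : (A - B).degree < s.card := by
    have h := degree_sub_lt_left (p := A) (q := B) (by rw [hAd, hBd, hst]) hAm.ne_zero
      (by rw [hAm.leadingCoeff, hBm.leadingCoeff])
    rwa [hAd, ← hst] at h
  have h1 := Lagrange.coeff_eq_sum hv hlt
  have hcA : A.coeff (s.card - 1) = - ∑ j ∈ t, a j := by
    rw [hst]; exact prod_X_sub_C_coeff_card_pred t a (hst ▸ hpos)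
  have hcB : B.coeff (s.card - 1) = - ∑ i ∈ s, v i :=
    prod_X_sub_C_coeff_card_pred s v hpos
  rw [coeff_sub, hcA, hcB] at h1
  have h2 : ∑ i ∈ s, (∏ j ∈ t, (v i - a j)) / ∏ j ∈ s.erase i, (v i - v j)
      = ∑ i ∈ s, ((A - B).eval (v i)) / ∏ j ∈ s.erase i, (v i - v j) := by
    refine Finset.sum_congr rfl fun i hi => ?_
    congr 1
    rw [eval_sub, hA, hB, eval_prod, eval_prod, Finset.prod_eq_zero hi (by simp)]
    simp
  rw [h2, ← h1]; ring

end Pool.Agent.MP_67fd2b_co
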