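import Mathlib
import Pool.Agent.MP_67fd2b_co.Resid

namespace Pool.Agent.MP_67fd2b_co

open Finset

variable {K : Type*} [Field K] {N : ℕ}

/-- Vandermonde product `∏_{a<b} (x a - x b)`. -/
def V (x : Fin N → K) : K := ∏ a, ∏ b, (if a < b then x a - x b else 1)

theorem V_update_aux (x : Fin N → K) (i : Fin N) (t : K) :
    V (Function.update x i t) =
      ((∏ b ∈ univ.erase i, (if i < b then (1 : K) else -1)) *
        ∏ a ∈ univ.erase i, ∏ b ∈ univ.erase i, (if a < b then x a - x b else 1)) *
      ∏ j ∈ univ.erase i, (t - x j) := by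
  unfold V
  rw [← Finset.mul_prod_erase univ _ (Finset.mem_univ i)]
  rw [← Finset.mul_prod_erase univ _ (Finset.mem_univ i)]
  have h1 : ∏ a ∈ univ.erase i, ∏ b, (if a < b then Function.update x i t a -
        Function.update x i t b else 1)
      = ∏ a ∈ univ.erase i, ((if a < i then x a - t else 1) *
        ∏ b ∈ univ.erase i, (if a < b then x a - x b else 1)) := by
    refine Finset.prod_congr rfl fun a ha => ?_
    rw [← Finset.mul_prod_erase univ _ (Finset.mem_univ i)]
    have hai : a ≠ i := (Finset.mem_erase.mp ha).1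
    rw [Function.update_of_ne hai, Function.update_self]
    congr 1
    refine Finset.prod_congr rfl fun b hb => ?_
    have hbi : b ≠ i := (Finset.mem_erase.mp hb).1
    rw [Function.update_of_ne hbi]
  rw [h1, Finset.prod_mul_distrib]
  have h2 : ∏ b ∈ univ.erase i, (if i < b then Function.update x i t i -
        Function.update x i t b else 1)
      = ∏ b ∈ univ.erase i, (if i < b then t - x b else 1) := by
    refine Finset.prod_congr rfl fun b hb => ?_
    have hbi : b ≠ i := (Finset.mem_erase.mp hb).1
    rw [Function.update_of_ne hbi, Function.update_self]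
  rw [h2]
  simp only [lt_self_iff_false, if_false, one_mul]
  have h3 : (∏ b ∈ univ.erase i, (if i < b then t - x b else 1)) *
      (∏ a ∈ univ.erase i, (if a < i then x a - t else 1))
      = (∏ b ∈ univ.erase i, (if i < b then (1 : K) else -1)) *
        ∏ j ∈ univ.erase i, (t - x j) := by
    rw [← Finset.prod_mul_distrib, ← Finset.prod_mul_distrib]
    refine Finset.prod_congr rfl fun b hb => ?_
    have hbi : b ≠ i := (Finset.mem_erase.mp hb).1
    rcases lt_or_gt_of_ne hbi with h | h
    · simp [h, not_lt.mpr h.le]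
    · simp [h, not_lt.mpr h.le]
  calc _ = ((∏ b ∈ univ.erase i, (if i < b then t - x b else 1)) *
      (∏ a ∈ univ.erase i, (if a < i then x a - t else 1))) *
      ∏ a ∈ univ.erase i, ∏ b ∈ univ.erase i, (if a < b then x a - x b else 1) := by ring
    _ = _ := by rw [h3]; ring

theorem V_update (x : Fin N → K) (i : Fin N) (t : K) :
    V (Function.update x i t) * ∏ j ∈ univ.erase i, (x i - x j)
      = V x * ∏ j ∈ univ.erase i, (t - x j) := by
  have h := V_update_aux x i (x i)
  rw [Function.update_eq_self] at h
  rw [V_update_aux, h]; ring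

/-- `(c)_n / n!` -/
def cf (c : K) (n : ℕ) : K := ∏ s ∈ range n, ((c + s) / (1 + s))

/-- The antisymmetric function attached to the symplectic content weight. -/
def G (c : K) (l : Fin N → ℕ) : K :=
  V (fun i => ((l i : K) + c / 2) ^ 2) * ∏ i, cf c (l i)

theorem cf_add [CharZero K] (c : K) (n k : ℕ) :
    cf c (n + k) * ∏ s ∈ range k, ((n : K) + 1 + s) = cf c n * ∏ s ∈ range k, ((n : K) + c + s) := by
  unfold cf
  rw [Finset.prod_range_add, mul_assoc, ← Finset.prod_mul_distrib]
  congr 1
  refine Finset.prod_congr rfl fun s _ => ?_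
  have : (1 + ((n + s : ℕ) : K)) ≠ 0 := by
    have : ((1 + (n + s) : ℕ) : K) ≠ 0 := by exact_mod_cast (by omega)
    push_cast at this ⊢; exact this
  rw [div_mul_eq_mul_div, div_eq_iff this]
  push_cast; ring

theorem G_up [CharZero K] (c : K) (l : Fin N → ℕ) (i : Fin N) (k : ℕ) :
    G c (Function.update l i (l i + k)) *
      ((∏ j ∈ univ.erase i, (((l i : K) - l j) * ((l i : K) + l j + c))) *
        ∏ s ∈ range k, ((l i : K) + 1 + s))
    = G c l *
      ((∏ j ∈ univ.erase i, (((l i : K) + k - l j) * ((l i : K) + k + l j + c))) *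
        ∏ s ∈ range k, ((l i : K) + c + s)) := by
  unfold G
  have e1 : (fun j => (((Function.update l i (l i + k)) j : ℕ) : K) + c / 2) =
      Function.update (fun j => (l j : K) + c / 2) i ((l i : K) + k + c / 2) := by
    funext j
    by_cases hj : j = i
    · subst hj; simp
    · simp [Function.update_of_ne hj]
  have e2 : (fun j => ((((Function.update l i (l i + k)) j : ℕ) : K) + c / 2) ^ 2) =
      Function.update (fun j => ((l j : K) + c / 2) ^ 2) i (((l i : K) + k + c / 2) ^ 2) := by
    funext j
    by_cases hj : j = i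
    · subst hj; simp
    · simp [Function.update_of_ne hj]
  rw [e2]
  have h1 := V_update (fun j => ((l j : K) + c / 2) ^ 2) i (((l i : K) + k + c / 2) ^ 2)
  have a1 : ∏ j ∈ univ.erase i, (((l i : K) - l j) * ((l i : K) + l j + c))
      = ∏ j ∈ univ.erase i, (((l i : K) + c / 2) ^ 2 - ((l j : K) + c / 2) ^ 2) :=
    Finset.prod_congr rfl fun j _ => by ring
  have a2 : ∏ j ∈ univ.erase i, (((l i : K) + k - l j) * ((l i : K) + k + l j + c))
      = ∏ j ∈ univ.erase i, (((l i : K) + k + c / 2) ^ 2 - ((l j : K) + c / 2) ^ 2) :=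
    Finset.prod_congr rfl fun j _ => by ring
  rw [a1, a2]
  rw [← Finset.mul_prod_erase univ (fun j => cf c (Function.update l i (l i + k) j)) (Finset.mem_univ i)]
  rw [← Finset.mul_prod_erase univ (fun j => cf c (l j)) (Finset.mem_univ i)]
  have h3 : ∏ j ∈ univ.erase i, cf c (Function.update l i (l i + k) j)
      = ∏ j ∈ univ.erase i, cf c (l j) := by
    refine Finset.prod_congr rfl fun j hj => ?_
    rw [Function.update_of_ne (Finset.mem_erase.mp hj).1]
  rw [h3, Function.update_self]
  have h2 := cf_add c (l i) k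
  linear_combination (∏ j ∈ univ.erase i, cf c (l j)) * (cf c (l i + k)) *
      (∏ s ∈ range k, ((l i : K) + 1 + s)) * h1 +
    (∏ j ∈ univ.erase i, cf c (l j)) * V (fun j => ((l j : K) + c / 2) ^ 2) *
      (∏ j ∈ univ.erase i, (((l i : K) + k + c / 2) ^ 2 - ((l j : K) + c / 2) ^ 2)) * h2

theorem G_down [CharZero K] (c : K) (l : Fin N → ℕ) (i : Fin N) (k : ℕ) (hk : k ≤ l i) :
    G c l *
      ((∏ j ∈ univ.erase i, (((l i : K) - k - l j) * ((l i : K) - k + l j + c))) *
        ∏ s ∈ range k, ((l i : K) - s))
    = G c (Function.update l i (l i - k)) *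
      ((∏ j ∈ univ.erase i, (((l i : K) - l j) * ((l i : K) + l j + c))) *
        ∏ s ∈ range k, ((l i : K) + c - 1 - s)) := by
  have h := G_up c (Function.update l i (l i - k)) i k
  have e : Function.update (Function.update l i (l i - k)) i
      ((Function.update l i (l i - k)) i + k) = l := by
    rw [Function.update_self, Function.update_idem, Nat.sub_add_cancel hk, Function.update_eq_self]
  rw [e, Function.update_self] at h
  have hc : ((l i - k : ℕ) : K) = (l i : K) - k := by push_cast [hk]; ring
  rw [hc] at h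
  have a1 : ∏ j ∈ univ.erase i, (((l i : K) - k - (Function.update l i (l i - k) j : ℕ)) *
        ((l i : K) - k + (Function.update l i (l i - k) j : ℕ) + c))
      = ∏ j ∈ univ.erase i, (((l i : K) - k - l j) * ((l i : K) - k + l j + c)) := by
    refine Finset.prod_congr rfl fun j hj => ?_
    rw [Function.update_of_ne (Finset.mem_erase.mp hj).1]
  have a2 : ∏ j ∈ univ.erase i, (((l i : K) - k + k - (Function.update l i (l i - k) j : ℕ)) *
        ((l i : K) - k + k + (Function.update l i (l i - k) j : ℕ) + c))
      = ∏ j ∈ univ.erase i, (((l i : K) - l j) * ((l i : K) + l j + c)) := by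
    refine Finset.prod_congr rfl fun j hj => ?_
    rw [Function.update_of_ne (Finset.mem_erase.mp hj).1]
    ring
  have a3 : ∏ s ∈ range k, ((l i : K) - k + 1 + s) = ∏ s ∈ range k, ((l i : K) - s) := by
    rw [← Finset.prod_range_reflect]
    refine Finset.prod_congr rfl fun s hs => ?_
    have : s < k := Finset.mem_range.mp hs
    have : ((k - 1 - s : ℕ) : K) = (k : K) - 1 - s := by
      rw [Nat.sub_sub, Nat.cast_sub (by omega)]; push_cast; ring
    rw [this]; ring
  have a4 : ∏ s ∈ range k, ((l i : K) - k + c + s) = ∏ s ∈ range k, ((l i : K) + c - 1 - s) := by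
    rw [← Finset.prod_range_reflect]
    refine Finset.prod_congr rfl fun s hs => ?_
    have : s < k := Finset.mem_range.mp hs
    have : ((k - 1 - s : ℕ) : K) = (k : K) - 1 - s := by
      rw [Nat.sub_sub, Nat.cast_sub (by omega)]; push_cast; ring
    rw [this]; ring
  rw [a1, a2, a3, a4] at h
  exact h

end Pool.Agent.MP_67fd2b_co
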