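import Mathlib
import Pool.Agent.MP_67fd2b_co.Ward

namespace Pool.Agent.MP_67fd2b_co

open Finset

variable {K : Type*} [Field K] {N : ℕ}

theorem prod_erase_inl {α β : Type*} [Fintype α] [Fintype β] [DecidableEq α] [DecidableEq β]
    (a : α) (f : α ⊕ β → K) :
    ∏ x ∈ (univ : Finset (α ⊕ β)).erase (Sum.inl a), f x
      = (∏ x ∈ univ.erase a, f (Sum.inl x)) * ∏ b, f (Sum.inr b) := by
  have h1 : ∏ x ∈ (univ : Finset (α ⊕ β)).erase (Sum.inl a), f x
      = ∏ x, (if x = Sum.inl a then 1 else f x) := by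
    rw [← Finset.mul_prod_erase univ (fun x => if x = Sum.inl a then (1 : K) else f x)
      (Finset.mem_univ (Sum.inl a))]
    simp only [if_true, one_mul]
    refine Finset.prod_congr rfl fun x hx => ?_
    rw [if_neg (Finset.mem_erase.mp hx).1]
  have h2 : ∏ x ∈ univ.erase a, f (Sum.inl x) = ∏ x, (if x = a then 1 else f (Sum.inl x)) := by
    rw [← Finset.mul_prod_erase univ (fun x => if x = a then (1 : K) else f (Sum.inl x))
      (Finset.mem_univ a)]
    simp only [if_true, one_mul]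
    refine Finset.prod_congr rfl fun x hx => ?_
    rw [if_neg (Finset.mem_erase.mp hx).1]
  rw [h1, h2, Fintype.prod_sum_type]
  simp

theorem prod_erase_inr {α β : Type*} [Fintype α] [Fintype β] [DecidableEq α] [DecidableEq β]
    (b : β) (f : α ⊕ β → K) :
    ∏ x ∈ (univ : Finset (α ⊕ β)).erase (Sum.inr b), f x
      = (∏ a, f (Sum.inl a)) * ∏ x ∈ univ.erase b, f (Sum.inr x) := by
  have h1 : ∏ x ∈ (univ : Finset (α ⊕ β)).erase (Sum.inr b), f x
      = ∏ x, (if x = Sum.inr b then 1 else f x) := by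
    rw [← Finset.mul_prod_erase univ (fun x => if x = Sum.inr b then (1 : K) else f x)
      (Finset.mem_univ (Sum.inr b))]
    simp only [if_true, one_mul]
    refine Finset.prod_congr rfl fun x hx => ?_
    rw [if_neg (Finset.mem_erase.mp hx).1]
  have h2 : ∏ x ∈ univ.erase b, f (Sum.inr x) = ∏ x, (if x = b then 1 else f (Sum.inr x)) := by
    rw [← Finset.mul_prod_erase univ (fun x => if x = b then (1 : K) else f (Sum.inr x))
      (Finset.mem_univ b)]
    simp only [if_true, one_mul]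
    refine Finset.prod_congr rfl fun x hx => ?_
    rw [if_neg (Finset.mem_erase.mp hx).1]
  rw [h1, h2, Fintype.prod_sum_type]
  simp

/-- the poles -/
def vv (c : K) (l : Fin N → ℕ) (k : ℕ) : (Fin N ⊕ Fin N) ⊕ (Fin k ⊕ Unit) → K
  | Sum.inl (Sum.inl i) => l i
  | Sum.inl (Sum.inr i) => -(l i : K) - c
  | Sum.inr (Sum.inl s) => -1 - (s : ℕ)
  | Sum.inr (Sum.inr _) => -(c + k) / 2

/-- the zeros -/
def aa (c : K) (l : Fin N → ℕ) (k : ℕ) : (Fin N ⊕ Fin N) ⊕ (Fin k ⊕ Unit) → K
  | Sum.inl (Sum.inl i) => (l i : K) - k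
  | Sum.inl (Sum.inr i) => -(l i : K) - c - k
  | Sum.inr (Sum.inl s) => -c - (s : ℕ)
  | Sum.inr (Sum.inr _) => -c / 2

theorem vv_inj [CharZero K] (c : K) (hc : ∀ n : ℤ, c ≠ n) (l : Fin N → ℕ)
    (hl : Function.Injective l) (k : ℕ) : Function.Injective (vv c l k) := by
  rintro ((i | i) | (i | i)) ((j | j) | (j | j)) h <;> simp only [vv] at h
  · have : l i = l j := by exact_mod_cast h
    rw [hl this]
  · exact absurd (show c = ((-(l i : ℤ) - l j : ℤ) : K) by push_cast; linear_combination h) (hc _)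
  · exfalso
    have h' : ((l i + 1 + j : ℕ) : K) = 0 := by push_cast; linear_combination h
    rw [Nat.cast_eq_zero] at h'; omega
  · exact absurd (show c = ((-2 * (l i : ℤ) - k : ℤ) : K) by
      push_cast; linear_combination 2 * h) (hc _)
  · exact absurd (show c = ((-(l i : ℤ) - l j : ℤ) : K) by push_cast; linear_combination -h) (hc _)
  · have : (l i : K) = l j := by linear_combination -h
    have : l i = l j := by exact_mod_cast this
    rw [hl this]
  · exact absurd (show c = ((-(l i : ℤ) + 1 + (j : ℕ) : ℤ) : K) by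
      push_cast; linear_combination -h) (hc _)
  · exact absurd (show c = ((-2 * (l i : ℤ) + k : ℤ) : K) by
      push_cast; linear_combination -2 * h) (hc _)
  · exfalso
    have h' : ((l j + 1 + i : ℕ) : K) = 0 := by push_cast; linear_combination -h
    rw [Nat.cast_eq_zero] at h'; omega
  · exact absurd (show c = ((-(l j : ℤ) + 1 + (i : ℕ) : ℤ) : K) by
      push_cast; linear_combination h) (hc _)
  · have : ((i : ℕ) : K) = (j : ℕ) := by linear_combination -h
    have : (i : ℕ) = j := by exact_mod_cast this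
    rw [Fin.ext this]
  · exact absurd (show c = ((2 + 2 * (i : ℕ) - k : ℤ) : K) by
      push_cast; linear_combination 2 * h) (hc _)
  · exact absurd (show c = ((-2 * (l j : ℤ) - k : ℤ) : K) by
      push_cast; linear_combination -2 * h) (hc _)
  · exact absurd (show c = ((-2 * (l j : ℤ) + k : ℤ) : K) by
      push_cast; linear_combination 2 * h) (hc _)
  · exact absurd (show c = ((2 + 2 * (j : ℕ) - k : ℤ) : K) by
      push_cast; linear_combination -2 * h) (hc _)
  · rfl

theorem prod_neg_range (k : ℕ) (f : ℕ → K) :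
    ∏ s ∈ range k, (- f s) = (-1) ^ k * ∏ s ∈ range k, f s := by
  rw [Finset.prod_neg, Finset.card_range]

theorem fin_prod (k : ℕ) (f : ℕ → K) : ∏ s : Fin k, f s = ∏ s ∈ range k, f s :=
  Fin.prod_univ_eq_prod_range f k

/-- residue at `l i` -/
theorem res1 [CharZero K] (c : K) (hc : ∀ n : ℤ, c ≠ n) (l : Fin N → ℕ)
    (hl : Function.Injective l) (k : ℕ) (i : Fin N) :
    (∏ j, (vv c l k (Sum.inl (Sum.inl i)) - aa c l k j)) /
      (∏ j ∈ univ.erase (Sum.inl (Sum.inl i)), (vv c l k (Sum.inl (Sum.inl i)) - vv c l k j))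
      * G c l = k * G c (Function.update l i (l i + k)) := by
  have hden : (∏ j ∈ univ.erase (Sum.inl (Sum.inl i)),
      (vv c l k (Sum.inl (Sum.inl i)) - vv c l k j)) ≠ 0 := by
    refine Finset.prod_ne_zero_iff.mpr fun j hj => ?_
    have := (Finset.mem_erase.mp hj).1
    exact sub_ne_zero.mpr fun h => this (vv_inj c hc l hl k h).symm
  rw [div_mul_eq_mul_div, div_eq_iff hden]
  rw [prod_erase_inl, prod_erase_inl, Fintype.prod_sum_type, Fintype.prod_sum_type,
    Fintype.prod_sum_type, Fintype.prod_sum_type]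
  simp only [vv, aa, Finset.univ_unique, Finset.prod_singleton]
  rw [fin_prod k (fun s => (l i : K) - (-1 - (s : K))), fin_prod k (fun s => (l i : K) - (-c - (s : K)))]
  rw [← Finset.mul_prod_erase univ (fun j => (l i : K) - ((l j : K) - k)) (Finset.mem_univ i),
    ← Finset.mul_prod_erase univ (fun j => (l i : K) - (-(l j : K) - c - k)) (Finset.mem_univ i),
    ← Finset.mul_prod_erase univ (fun j => (l i : K) - (-(l j : K) - c)) (Finset.mem_univ i)]
  have h := G_up c l i k
  rw [Finset.prod_mul_distrib, Finset.prod_mul_distrib] at h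
  have e1 : ∏ j ∈ univ.erase i, ((l i : K) - ((l j : K) - k)) =
      ∏ j ∈ univ.erase i, ((l i : K) + k - l j) := Finset.prod_congr rfl fun j _ => by ring
  have e2 : ∏ j ∈ univ.erase i, ((l i : K) - (-(l j : K) - c - k)) =
      ∏ j ∈ univ.erase i, ((l i : K) + k + l j + c) := Finset.prod_congr rfl fun j _ => by ring
  have e3 : ∏ j ∈ univ.erase i, ((l i : K) - (-(l j : K) - c)) =
      ∏ j ∈ univ.erase i, ((l i : K) + l j + c) := Finset.prod_congr rfl fun j _ => by ring
  have e4 : ∏ s ∈ range k, ((l i : K) - (-1 - (s : K))) = ∏ s ∈ range k, ((l i : K) + 1 + s) :=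
    Finset.prod_congr rfl fun j _ => by ring
  have e5 : ∏ s ∈ range k, ((l i : K) - (-c - (s : K))) = ∏ s ∈ range k, ((l i : K) + c + s) :=
    Finset.prod_congr rfl fun j _ => by ring
  rw [e1, e2, e3, e4, e5]
  linear_combination (-(k : K) * (2 * (l i : K) + c + k) * ((l i : K) + c / 2)) * h

/-- residue at `- l i - c` -/
theorem res2 [CharZero K] (c : K) (hc : ∀ n : ℤ, c ≠ n) (l : Fin N → ℕ)
    (hl : Function.Injective l) (k : ℕ) (i : Fin N) :
    (∏ j, (vv c l k (Sum.inl (Sum.inr i)) - aa c l k j)) /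
      (∏ j ∈ univ.erase (Sum.inl (Sum.inr i)), (vv c l k (Sum.inl (Sum.inr i)) - vv c l k j))
      * G c l = k * (if k ≤ l i then G c (Function.update l i (l i - k)) else 0) := by
  have hden : (∏ j ∈ univ.erase (Sum.inl (Sum.inr i)),
      (vv c l k (Sum.inl (Sum.inr i)) - vv c l k j)) ≠ 0 := by
    refine Finset.prod_ne_zero_iff.mpr fun j hj => ?_
    have := (Finset.mem_erase.mp hj).1
    exact sub_ne_zero.mpr fun h => this (vv_inj c hc l hl k h).symm
  rw [div_mul_eq_mul_div, div_eq_iff hden]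
  rw [prod_erase_inl, prod_erase_inr, Fintype.prod_sum_type, Fintype.prod_sum_type,
    Fintype.prod_sum_type, Fintype.prod_sum_type]
  simp only [vv, aa, Finset.univ_unique, Finset.prod_singleton]
  rw [fin_prod k (fun s => -(l i : K) - c - (-1 - (s : K))),
    fin_prod k (fun s => -(l i : K) - c - (-c - (s : K)))]
  by_cases hk : k ≤ l i
  · rw [if_pos hk]
    rw [← Finset.mul_prod_erase univ (fun j => -(l i : K) - c - ((l j : K) - k)) (Finset.mem_univ i),
      ← Finset.mul_prod_erase univ (fun j => -(l i : K) - c - (-(l j : K) - c - k)) (Finset.mem_univ i),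
      ← Finset.mul_prod_erase univ (fun j => -(l i : K) - c - (l j : K)) (Finset.mem_univ i)]
    have h := G_down c l i k hk
    have e1 : (∏ j ∈ univ.erase i, (-(l i : K) - c - ((l j : K) - k))) *
        (∏ j ∈ univ.erase i, (-(l i : K) - c - (-(l j : K) - c - k))) =
        ∏ j ∈ univ.erase i, (((l i : K) - k - l j) * ((l i : K) - k + l j + c)) := by
      rw [← Finset.prod_mul_distrib]; exact Finset.prod_congr rfl fun j _ => by ring
    have e2 : (∏ j ∈ univ.erase i, (-(l i : K) - c - (l j : K))) *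
        (∏ j ∈ univ.erase i, (-(l i : K) - c - (-(l j : K) - c))) =
        ∏ j ∈ univ.erase i, (((l i : K) - l j) * ((l i : K) + l j + c)) := by
      rw [← Finset.prod_mul_distrib]; exact Finset.prod_congr rfl fun j _ => by ring
    have e4 : ∏ s ∈ range k, (-(l i : K) - c - (-1 - (s : K))) =
        (-1) ^ k * ∏ s ∈ range k, ((l i : K) + c - 1 - s) := by
      rw [← prod_neg_range]; exact Finset.prod_congr rfl fun j _ => by ring
    have e5 : ∏ s ∈ range k, (-(l i : K) - c - (-c - (s : K))) =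
        (-1) ^ k * ∏ s ∈ range k, ((l i : K) - s) := by
      rw [← prod_neg_range]; exact Finset.prod_congr rfl fun j _ => by ring
    rw [e4, e5]
    rw [← e1, ← e2] at h
    linear_combination ((k : K) * (-(2 * (l i : K) + c - k)) * (-((l i : K) + c / 2)) * (-1) ^ k) * h
  · rw [if_neg hk]
    have hz : ∏ s ∈ range k, (-(l i : K) - c - (-c - (s : K))) = 0 := by
      refine Finset.prod_eq_zero (Finset.mem_range.mpr (not_le.mp hk)) ?_
      ring
    rw [hz]; ring

/-- residue at `-1 - s` -/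
theorem res3 [CharZero K] (c : K) (l : Fin N → ℕ) (k : ℕ) (s : Fin k)
    (hs : ∃ j, l j = k - 1 - s) :
    (∏ j, (vv c l k (Sum.inr (Sum.inl s)) - aa c l k j)) = 0 := by
  obtain ⟨j, hj⟩ := hs
  refine Finset.prod_eq_zero (Finset.mem_univ (Sum.inl (Sum.inl j))) ?_
  simp only [vv, aa]
  have : (l j : K) = (k : K) - 1 - (s : ℕ) := by
    rw [hj, Nat.sub_sub, Nat.cast_sub (by have := s.2; omega)]; push_cast; ring
  rw [this]; ring

/-- residue at `-(c+k)/2` -/
theorem res4 [CharZero K] (c : K) (hc : ∀ n : ℤ, c ≠ n) (l : Fin N → ℕ)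
    (hl : Function.Injective l) (k : ℕ) :
    (∏ j, (vv c l k (Sum.inr (Sum.inr ())) - aa c l k j)) /
      (∏ j ∈ univ.erase (Sum.inr (Sum.inr ())), (vv c l k (Sum.inr (Sum.inr ())) - vv c l k j))
      = -(k : K) / 2 * (-1) ^ k := by
  have hden : (∏ j ∈ univ.erase (Sum.inr (Sum.inr ())),
      (vv c l k (Sum.inr (Sum.inr ())) - vv c l k j)) ≠ 0 := by
    refine Finset.prod_ne_zero_iff.mpr fun j hj => ?_
    have := (Finset.mem_erase.mp hj).1
    exact sub_ne_zero.mpr fun h => this (vv_inj c hc l hl k h).symm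
  rw [div_eq_iff hden]
  rw [prod_erase_inr, prod_erase_inr, Fintype.prod_sum_type, Fintype.prod_sum_type,
    Fintype.prod_sum_type, Fintype.prod_sum_type]
  simp only [vv, aa, Finset.univ_unique, Finset.prod_singleton]
  rw [fin_prod k (fun s => -(c + k) / 2 - (-1 - (s : K))),
    fin_prod k (fun s => -(c + k) / 2 - (-c - (s : K)))]
  have e1 : (∏ j, (-(c + k) / 2 - ((l j : K) - k))) * (∏ j, (-(c + k) / 2 - (-(l j : K) - c - k)))
      = (∏ j, (-(c + k) / 2 - (l j : K))) * (∏ j, (-(c + k) / 2 - (-(l j : K) - c))) := by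
    rw [← Finset.prod_mul_distrib, ← Finset.prod_mul_distrib]
    exact Finset.prod_congr rfl fun j _ => by ring
  have e2 : ∏ s ∈ range k, (-(c + k) / 2 - (-1 - (s : K))) =
      (-1) ^ k * ∏ s ∈ range k, (-(c + k) / 2 - (-c - (s : K))) := by
    rw [← prod_neg_range, ← Finset.prod_range_reflect]
    refine Finset.prod_congr rfl fun s hs => ?_
    have hs' : s < k := Finset.mem_range.mp hs
    have : ((k - 1 - s : ℕ) : K) = (k : K) - 1 - s := by
      rw [Nat.sub_sub, Nat.cast_sub (by omega)]; push_cast; ring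
    rw [this]; ring
  have e4 : ∏ x ∈ ({default} : Finset Unit).erase (), (-(c + k) / 2 - -(c + k) / 2 : K) = 1 := by
    simp
  rw [e4, e1, e2]
  have hsq : ((-1 : K) ^ k) * (-1) ^ k = 1 := by
    rw [← mul_pow]; simp
  linear_combination (-(∏ j, (-(c + k) / 2 - (l j : K))) * (∏ j, (-(c + k) / 2 - (-(l j : K) - c)))
    * (∏ s ∈ range k, (-(c + k) / 2 - (-c - (s : K)))) * (-(k : K) / 2)) * hsq

theorem sum_nodes [CharZero K] (c : K) (l : Fin N → ℕ) (k : ℕ) :
    ∑ j, vv c l k j - ∑ j, aa c l k j = k * (2 * N + c - 3 / 2) := by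
  rw [← Finset.sum_sub_distrib, Fintype.sum_sum_type, Fintype.sum_sum_type, Fintype.sum_sum_type]
  simp only [vv, aa, Finset.univ_unique, Finset.sum_singleton]
  have e1 : ∑ j : Fin N, ((l j : K) - ((l j : K) - k)) = N * k := by
    rw [Finset.sum_congr rfl (fun j _ => show ((l j : K) - ((l j : K) - k)) = (k : K) by ring)]
    simp
  have e2 : ∑ j : Fin N, (-(l j : K) - c - (-(l j : K) - c - k)) = N * k := by
    rw [Finset.sum_congr rfl (fun j _ => show (-(l j : K) - c - (-(l j : K) - c - k)) = (k : K) by ring)]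
    simp
  have e3 : ∑ s : Fin k, ((-1 - ((s : ℕ) : K)) - (-c - ((s : ℕ) : K))) = k * (c - 1) := by
    rw [Finset.sum_congr rfl (fun (s : Fin k) _ =>
      show ((-1 - ((s : ℕ) : K)) - (-c - ((s : ℕ) : K))) = (c - 1 : K) by ring)]
    simp only [Finset.sum_const, Finset.card_univ, Fintype.card_fin, nsmul_eq_mul]
  rw [e1, e2, e3]; ring

/-- The Ward identity for injective `l` containing `0, …, k-1`. -/
theorem ward [CharZero K] (c : K) (hc : ∀ n : ℤ, c ≠ n) (l : Fin N → ℕ)
    (hl : Function.Injective l) (k : ℕ) (hk : 0 < k) (hs : ∀ s < k, ∃ j, l j = s) :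
    ∑ i, G c (Function.update l i (l i + k)) +
      ∑ i, (if k ≤ l i then G c (Function.update l i (l i - k)) else 0)
      = (c + 2 * N - 2 + (if Even k then 1 else 0)) * G c l := by
  have h := resid (univ : Finset ((Fin N ⊕ Fin N) ⊕ (Fin k ⊕ Unit)))
    (univ : Finset ((Fin N ⊕ Fin N) ⊕ (Fin k ⊕ Unit))) rfl (vv c l k) (aa c l k)
    ((vv_inj c hc l hl k).injOn)
  rw [sum_nodes, Fintype.sum_sum_type, Fintype.sum_sum_type, Fintype.sum_sum_type] at h
  have h3 : ∑ s : Fin k, (∏ j, (vv c l k (Sum.inr (Sum.inl s)) - aa c l k j)) /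
      (∏ j ∈ univ.erase (Sum.inr (Sum.inl s)), (vv c l k (Sum.inr (Sum.inl s)) - vv c l k j)) = 0 := by
    refine Finset.sum_eq_zero fun s _ => ?_
    rw [res3 c l k s (hs _ (by have := s.2; omega))]; simp
  have h4 : ∑ u : Unit, (∏ j, (vv c l k (Sum.inr (Sum.inr u)) - aa c l k j)) /
      (∏ j ∈ univ.erase (Sum.inr (Sum.inr u)), (vv c l k (Sum.inr (Sum.inr u)) - vv c l k j))
      = -(k : K) / 2 * (-1) ^ k := by
    rw [Finset.univ_unique, Finset.sum_singleton]
    exact res4 c hc l hl k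
  rw [h3, h4] at h
  have hk0 : (k : K) ≠ 0 := by exact_mod_cast hk.ne'
  have h1 : (∑ i : Fin N, (∏ j, (vv c l k (Sum.inl (Sum.inl i)) - aa c l k j)) /
      (∏ j ∈ univ.erase (Sum.inl (Sum.inl i)), (vv c l k (Sum.inl (Sum.inl i)) - vv c l k j)))
      * G c l = k * ∑ i, G c (Function.update l i (l i + k)) := by
    rw [Finset.sum_mul, Finset.mul_sum]
    exact Finset.sum_congr rfl fun i _ => res1 c hc l hl k i
  have h2 : (∑ i : Fin N, (∏ j, (vv c l k (Sum.inl (Sum.inr i)) - aa c l k j)) /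
      (∏ j ∈ univ.erase (Sum.inl (Sum.inr i)), (vv c l k (Sum.inl (Sum.inr i)) - vv c l k j)))
      * G c l = k * ∑ i, (if k ≤ l i then G c (Function.update l i (l i - k)) else 0) := by
    rw [Finset.sum_mul, Finset.mul_sum]
    exact Finset.sum_congr rfl fun i _ => res2 c hc l hl k i
  apply mul_left_cancel₀ hk0
  rw [mul_add, ← h1, ← h2, ← add_mul]
  have h' : (∑ i : Fin N, (∏ j, (vv c l k (Sum.inl (Sum.inl i)) - aa c l k j)) /
      (∏ j ∈ univ.erase (Sum.inl (Sum.inl i)), (vv c l k (Sum.inl (Sum.inl i)) - vv c l k j))) +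
      (∑ i : Fin N, (∏ j, (vv c l k (Sum.inl (Sum.inr i)) - aa c l k j)) /
      (∏ j ∈ univ.erase (Sum.inl (Sum.inr i)), (vv c l k (Sum.inl (Sum.inr i)) - vv c l k j)))
      = k * (2 * N + c - 3 / 2) - (-(k : K) / 2 * (-1) ^ k) := by
    rw [← h]; ring
  rw [h']
  rcases Nat.even_or_odd k with he | ho
  · rw [if_pos he, he.neg_one_pow]; ring
  · rw [if_neg (Nat.not_even_iff_odd.mpr ho), ho.neg_one_pow]; ring

end Pool.Agent.MP_67fd2b_co
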