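import Mathlib
import Pool.Agent.MP_67fd2b_co.Rec
import Pool.Agent.MP_67fd2b_co.Ward2

namespace Pool.Agent.MP_67fd2b_co

open Finset

variable {K : Type*} [Field K] {N : ℕ}

theorem V_eq_det (x : Fin N → K) : V x = (Matrix.vandermonde (fun i => - x i)).det := by
  rw [Matrix.det_vandermonde]
  unfold V
  refine Finset.prod_congr rfl fun a _ => ?_
  rw [← Finset.prod_filter]
  have : (univ.filter (fun b => a < b)) = Ioi a := by ext b; simp
  rw [this]
  exact Finset.prod_congr rfl fun b _ => by ring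

theorem V_swap (x : Fin N → K) (i j : Fin N) (hij : i ≠ j) :
    V (x ∘ Equiv.swap i j) = - V x := by
  rw [V_eq_det, V_eq_det]
  have : Matrix.vandermonde (fun a => - (x ∘ Equiv.swap i j) a)
      = (Matrix.vandermonde (fun a => - x a)).submatrix (Equiv.swap i j) id := by
    ext a b; simp [Matrix.vandermonde]
  rw [this, Matrix.det_permute, Equiv.Perm.sign_swap hij]
  simp

theorem G_anti (c : K) : Anti (G c : (Fin N → ℕ) → K) := by
  intro l i j hij
  unfold G
  have h1 : (fun a => (((l ∘ Equiv.swap i j) a : K) + c / 2) ^ 2)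
      = (fun a => ((l a : K) + c / 2) ^ 2) ∘ Equiv.swap i j := by
    funext a; simp
  have h2 : ∏ a, cf c ((l ∘ Equiv.swap i j) a) = ∏ a, cf c (l a) :=
    Equiv.prod_comp (Equiv.swap i j) (fun a => cf c (l a))
  rw [h1, h2, V_swap _ i j hij]; ring

theorem ward_all [CharZero K] (z : K) (hz : ∀ n : ℤ, z ≠ n) {k : ℕ} (hk : 0 < k) (M : ℕ)
    (hM : 2 * M + 2 * k ≤ N * (N - 1) + 2 * N) (l : Fin N → ℕ) (hl : l ∈ S N M) :
    Up k (G (z + 2 - 2 * N)) l + Dn k (G (z + 2 - 2 * N)) l
      = (z + ep k) * G (z + 2 - 2 * N) l := by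
  have hanti : Anti (G (z + 2 - 2 * N) : (Fin N → ℕ) → K) := G_anti _
  by_cases hinj : Function.Injective l
  · have hc : ∀ n : ℤ, z + 2 - 2 * N ≠ n := by
      intro n h
      apply hz (n - 2 + 2 * N)
      push_cast
      linear_combination h
    have := ward (z + 2 - 2 * N) hc l hinj k hk (level hinj hl hM)
    unfold Up Dn ep
    rw [this]; ring
  · rw [hanti.zero hinj, (hanti.up k).zero hinj, (hanti.dn k).zero hinj]; ring

/-- the divisor function in the logarithmic derivative of the product -/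
def rho (t : K) (n : ℕ) : K := ∑ d ∈ n.divisors, (t * d + (if d % 4 = 2 then (d : K) else 0))

theorem sum_rr (z : K) (n : ℕ) :
    ∑ k ∈ n.divisors, rr z k (n / k) = rho (-z ^ 2) n := by
  unfold rr rho
  rw [Finset.sum_sub_distrib, Finset.sum_sub_distrib, Finset.sum_add_distrib]
  have e1 : ∑ k ∈ n.divisors, z ^ 2 * ((n / k : ℕ) : K) = ∑ k ∈ n.divisors, z ^ 2 * (k : K) :=
    Nat.sum_div_divisors n (fun k => z ^ 2 * (k : K))
  have e2 : ∑ k ∈ n.divisors, ep k * (-1) ^ (n / k) * ((n / k : ℕ) : K)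
      = ∑ k ∈ n.divisors, ep (n / k) * (-1) ^ k * (k : K) := by
    rw [← Nat.sum_div_divisors n (fun k => ep (n / k) * (-1) ^ k * (k : K))]
    refine Finset.sum_congr rfl fun k hk => ?_
    rw [Nat.mem_divisors] at hk
    rw [Nat.div_div_self hk.1 hk.2]
  rw [e1, e2]
  have e3 : ∑ k ∈ n.divisors, (if Even (n / k) then (k : K) else 0)
      - ∑ k ∈ n.divisors, ep (n / k) * (-1) ^ k * (k : K)
      = ∑ k ∈ n.divisors, (if k % 4 = 2 then (k : K) else 0) := by
    rw [← Finset.sum_sub_distrib, ← Finset.sum_filter]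
    have e4 : ∀ k ∈ n.divisors, ((if Even (n / k) then (k : K) else 0)
        - ep (n / k) * (-1) ^ k * (k : K)) =
        if (Even (n / k) ∧ ¬ Even k) then ((2 * k : ℕ) : K) else 0 := by
      intro k _
      unfold ep
      by_cases h1 : Even (n / k)
      · by_cases h2 : Even k
        · simp [h1, h2]
        · rw [Nat.not_even_iff_odd] at h2
          simp [h1, h2, h2.neg_one_pow]; ring
      · simp [h1]
    rw [Finset.sum_congr rfl e4, ← Finset.sum_filter]
    refine Finset.sum_nbij' (fun k => 2 * k) (fun k => k / 2) ?_ ?_ ?_ ?_ ?_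
    · intro k hk
      simp only [Finset.mem_filter, Nat.mem_divisors, Nat.not_even_iff_odd] at hk ⊢
      obtain ⟨⟨hkn, hn⟩, he, ho⟩ := hk
      refine ⟨⟨?_, hn⟩, ?_⟩
      · obtain ⟨c, hc⟩ := he
        have : n = k * (n / k) := (Nat.mul_div_cancel' hkn).symm
        rw [this, hc]
        exact ⟨c, by ring⟩
      · obtain ⟨c, hc⟩ := ho
        omega
    · intro k hk
      simp only [Finset.mem_filter, Nat.mem_divisors, Nat.not_even_iff_odd] at hk ⊢
      obtain ⟨⟨hkn, hn⟩, h4⟩ := hk
      have hk2 : k = 2 * (k / 2) := by omega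
      have hd : k / 2 ∣ n := (Dvd.intro_left 2 hk2.symm).trans hkn
      refine ⟨⟨hd, hn⟩, ?_, ?_⟩
      · obtain ⟨c, hc⟩ := hkn
        have hpos : 0 < k / 2 := by omega
        have : n / (k / 2) = 2 * c := by
          apply Nat.div_eq_of_eq_mul_right hpos
          rw [hc]; conv_lhs => rw [hk2]
          ring
        rw [this]; exact even_two_mul c
      · rw [Nat.odd_iff]; omega
    · intro k _; omega
    · intro k hk
      simp only [Finset.mem_filter, Nat.mem_divisors] at hk
      obtain ⟨_, h4⟩ := hk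
      omega
    · intro k _; rfl
  rw [e3]
  have e5 : ∑ k ∈ n.divisors, -z ^ 2 * (k : K) = - ∑ k ∈ n.divisors, z ^ 2 * (k : K) := by
    rw [← Finset.sum_neg_distrib]; exact Finset.sum_congr rfl fun _ _ => by ring
  rw [e5]; ring

/-- the recurrence for the tuple sums -/
theorem tuple_rec [CharZero K] (z : K) (hz : ∀ n : ℤ, z ≠ n) (M : ℕ)
    (hM : 2 * M ≤ N * (N - 1) + 2 * N) :
    ((M : K) - N * (N - 1) / 2) *
        pr M (G (z + 2 - 2 * N) : (Fin N → ℕ) → K) (G (-z + 2 - 2 * N))
      = ∑ n ∈ Icc 1 M, rho (-z ^ 2) n *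
        pr (M - n) (G (z + 2 - 2 * N) : (Fin N → ℕ) → K) (G (-z + 2 - 2 * N)) := by
  have hz' : ∀ n : ℤ, -z ≠ n := by
    intro n h
    apply hz (-n)
    push_cast; linear_combination -h
  rw [degree_pr (G_anti _)]
  have key : ∀ k ∈ Icc 1 M, ee (G (z + 2 - 2 * N) : (Fin N → ℕ) → K) (G (-z + 2 - 2 * N)) k M
      = T (fun M => pr M (G (z + 2 - 2 * N) : (Fin N → ℕ) → K) (G (-z + 2 - 2 * N))) (rr z k) k M := by
    intro k hk
    have hk0 : 0 < k := (Finset.mem_Icc.mp hk).1
    have hep : (ep k : K) * ep k = ep k := by unfold ep; split_ifs <;> simp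
    refine (solve (A := z + ep k) (B := -z + ep k) (G_anti _) hk0
      (fun M' hM' l hl => ward_all z hz hk0 M' hM' l hl)
      (fun M' hM' l hl => ward_all (-z) hz' hk0 M' hM' l hl)
      (fun j => if Even j then -(-z + ep k) else z + ep k)
      (fun j => if Even j then -(z + ep k) else -z + ep k)
      (fun j => rr z k (j - 1)) (rr z k) ?_ ?_ ?_ ?_ ?_ ?_ ?_ ?_ M hM).2.2.2
    · simp
    · simp
    · simp [rr]
    · unfold rr; simp; linear_combination -hep
    · intro j hj
      simp only [Nat.even_add_one]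
      by_cases h : Even j <;> simp [h]
    · intro j hj
      simp only [Nat.even_add_one]
      by_cases h : Even j <;> simp [h]
    · intro j hj; simp
    · intro j hj
      obtain ⟨i, rfl⟩ := Nat.exists_eq_add_of_le' hj
      unfold rr
      simp only [Nat.add_sub_cancel, Nat.even_add_one, not_not]
      by_cases h : Even i
      · simp only [h, not_true_eq_false, not_false_eq_true, if_true, if_false, pow_succ]
        rw [h.neg_one_pow]
        push_cast
        linear_combination 2 * hep
      · have ho := Nat.not_even_iff_odd.mp h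
        simp only [h, not_true_eq_false, not_false_eq_true, if_true, if_false, pow_succ]
        rw [ho.neg_one_pow]
        push_cast
        linear_combination -2 * hep
  rw [Finset.sum_congr rfl key, regroup]
  exact Finset.sum_congr rfl fun n _ => by rw [sum_rr]

end Pool.Agent.MP_67fd2b_co
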