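import Mathlib
import Pool.Agent.MP_67fd2b_co.Defs
import Pool.Agent.MP_67fd2b_co.Ward

namespace Pool.Agent.MP_67fd2b_co

open Finset

theorem shift_inj : Function.Injective (fun c : ℕ × ℕ => (c.1 + 1, c.2 + 1)) := by
  rintro ⟨a, b⟩ ⟨c, d⟩ h
  simp only [Prod.mk.injEq, add_left_inj] at h
  exact Prod.ext h.1 h.2

/-- remove the first row and the first column -/
noncomputable def peel (μ : YoungDiagram) : YoungDiagram where
  cells := μ.cells.preimage (fun c : ℕ × ℕ => (c.1 + 1, c.2 + 1)) shift_inj.injOn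
  isLowerSet := by
    intro a b hab ha
    rw [Finset.mem_coe, Finset.mem_preimage] at ha ⊢
    exact μ.up_left_mem (Nat.add_le_add_right hab.1 1) (Nat.add_le_add_right hab.2 1) ha

theorem mem_peel {μ : YoungDiagram} {i j : ℕ} : (i, j) ∈ peel μ ↔ (i + 1, j + 1) ∈ μ := by
  show (i, j) ∈ (peel μ).cells ↔ _
  unfold peel
  rw [Finset.mem_preimage]
  rfl

theorem rowLen_eq_of {μ : YoungDiagram} {i m : ℕ} (h : ∀ j, (i, j) ∈ μ ↔ j < m) :
    μ.rowLen i = m := by
  apply le_antisymm
  · by_contra hlt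
    push Not at hlt
    exact absurd ((h m).mp (YoungDiagram.mem_iff_lt_rowLen.mpr hlt)) (lt_irrefl _)
  · by_contra hlt
    push Not at hlt
    exact absurd (YoungDiagram.mem_iff_lt_rowLen.mp ((h _).mpr hlt)) (lt_irrefl _)

theorem colLen_eq_of {μ : YoungDiagram} {j m : ℕ} (h : ∀ i, (i, j) ∈ μ ↔ i < m) :
    μ.colLen j = m := by
  apply le_antisymm
  · by_contra hlt
    push Not at hlt
    exact absurd ((h m).mp (YoungDiagram.mem_iff_lt_colLen.mpr hlt)) (lt_irrefl _)
  · by_contra hlt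
    push Not at hlt
    exact absurd (YoungDiagram.mem_iff_lt_colLen.mp ((h _).mpr hlt)) (lt_irrefl _)

theorem rowLen_peel (μ : YoungDiagram) (i : ℕ) : (peel μ).rowLen i = μ.rowLen (i + 1) - 1 := by
  apply rowLen_eq_of
  intro j
  rw [mem_peel, YoungDiagram.mem_iff_lt_rowLen]; omega

theorem colLen_peel (μ : YoungDiagram) (j : ℕ) : (peel μ).colLen j = μ.colLen (j + 1) - 1 := by
  apply colLen_eq_of
  intro i
  rw [mem_peel, YoungDiagram.mem_iff_lt_colLen]; omega

theorem hookLen_peel (μ : YoungDiagram) {i j : ℕ} (h : (i, j) ∈ peel μ) :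
    hookLen (peel μ) (i, j) = hookLen μ (i + 1, j + 1) := by
  rw [mem_peel] at h
  have h1 := YoungDiagram.mem_iff_lt_rowLen.mp h
  have h2 := YoungDiagram.mem_iff_lt_colLen.mp h
  unfold hookLen
  simp only [rowLen_peel, colLen_peel]
  push_cast [Nat.cast_sub (show 1 ≤ μ.rowLen (i + 1) by omega),
    Nat.cast_sub (show 1 ≤ μ.colLen (j + 1) by omega)]
  ring

theorem cSp_peel (μ : YoungDiagram) {i j : ℕ} (h : (i, j) ∈ peel μ) :
    cSp (peel μ) (i, j) = cSp μ (i + 1, j + 1) := by
  rw [mem_peel] at h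
  have h1 := YoungDiagram.mem_iff_lt_rowLen.mp h
  have h2 := YoungDiagram.mem_iff_lt_colLen.mp h
  unfold cSp
  simp only [rowLen_peel, colLen_peel, add_lt_add_iff_right]
  split_ifs with hji
  · have h3 := μ.rowLen_anti (j + 1) (i + 1) (by omega)
    push_cast [Nat.cast_sub (show 1 ≤ μ.rowLen (i + 1) by omega),
      Nat.cast_sub (show 1 ≤ μ.rowLen (j + 1) by omega)]
    ring
  · have h3 := μ.colLen_anti (i + 1) (j + 1) (by omega)
    push_cast [Nat.cast_sub (show 1 ≤ μ.colLen (i + 1) by omega),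
      Nat.cast_sub (show 1 ≤ μ.colLen (j + 1) by omega)]
    ring

/-- splitting a product over the cells into first row, rest of first column, and the rest -/
theorem prod_cells_peel {R : Type*} [CommMonoid R] (μ : YoungDiagram) (f : ℕ × ℕ → R) :
    ∏ c ∈ μ.cells, f c = (∏ j ∈ range (μ.rowLen 0), f (0, j)) *
      (∏ i ∈ range (μ.colLen 0 - 1), f (i + 1, 0)) *
      ∏ c ∈ (peel μ).cells, f (c.1 + 1, c.2 + 1) := by
  have e1 : ∏ j ∈ range (μ.rowLen 0), f (0, j)
      = ∏ c ∈ μ.cells.filter (fun c => c.1 = 0), f c := by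
    refine Finset.prod_nbij' (fun j => (0, j)) (fun c => c.2) ?_ ?_ ?_ ?_ ?_
    · intro j hj
      rw [Finset.mem_filter, YoungDiagram.mem_cells, YoungDiagram.mem_iff_lt_rowLen]
      exact ⟨Finset.mem_range.mp hj, rfl⟩
    · rintro ⟨i, j⟩ hc
      rw [Finset.mem_filter, YoungDiagram.mem_cells, YoungDiagram.mem_iff_lt_rowLen] at hc
      obtain ⟨h1, h2⟩ := hc
      simp only at h2; subst h2
      exact Finset.mem_range.mpr h1
    · intro j _; rfl
    · rintro ⟨i, j⟩ hc
      rw [Finset.mem_filter] at hc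
      exact Prod.ext hc.2.symm rfl
    · intro j _; rfl
  have e2 : ∏ i ∈ range (μ.colLen 0 - 1), f (i + 1, 0)
      = ∏ c ∈ (μ.cells.filter (fun c => ¬ c.1 = 0)).filter (fun c => c.2 = 0), f c := by
    refine Finset.prod_nbij' (fun i => (i + 1, 0)) (fun c => c.1 - 1) ?_ ?_ ?_ ?_ ?_
    · intro i hi
      rw [Finset.mem_filter, Finset.mem_filter, YoungDiagram.mem_cells,
        YoungDiagram.mem_iff_lt_colLen]
      have := Finset.mem_range.mp hi
      exact ⟨⟨by omega, by simp⟩, rfl⟩
    · rintro ⟨i, j⟩ hc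
      rw [Finset.mem_filter, Finset.mem_filter, YoungDiagram.mem_cells,
        YoungDiagram.mem_iff_lt_colLen] at hc
      obtain ⟨⟨h1, h2⟩, h3⟩ := hc
      simp only at h2 h3; subst h3
      rw [Finset.mem_range]; simp only; omega
    · intro i _; simp
    · rintro ⟨i, j⟩ hc
      rw [Finset.mem_filter, Finset.mem_filter] at hc
      obtain ⟨⟨h1, h2⟩, h3⟩ := hc
      simp only at h2 h3
      exact Prod.ext (by simp only; omega) h3.symm
    · intro i _; rfl
  have e3 : ∏ c ∈ (peel μ).cells, f (c.1 + 1, c.2 + 1)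
      = ∏ c ∈ (μ.cells.filter (fun c => ¬ c.1 = 0)).filter (fun c => ¬ c.2 = 0), f c := by
    refine Finset.prod_nbij' (fun c => (c.1 + 1, c.2 + 1)) (fun c => (c.1 - 1, c.2 - 1)) ?_ ?_ ?_ ?_ ?_
    · rintro ⟨i, j⟩ hc
      rw [YoungDiagram.mem_cells, mem_peel] at hc
      rw [Finset.mem_filter, Finset.mem_filter, YoungDiagram.mem_cells]
      exact ⟨⟨hc, by simp⟩, by simp⟩
    · rintro ⟨i, j⟩ hc
      rw [Finset.mem_filter, Finset.mem_filter, YoungDiagram.mem_cells] at hc
      obtain ⟨⟨h1, h2⟩, h3⟩ := hc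
      simp only at h2 h3
      rw [YoungDiagram.mem_cells, mem_peel, Nat.sub_add_cancel (by omega),
        Nat.sub_add_cancel (by omega)]
      exact h1
    · rintro ⟨i, j⟩ _; simp
    · rintro ⟨i, j⟩ hc
      rw [Finset.mem_filter, Finset.mem_filter] at hc
      obtain ⟨⟨h1, h2⟩, h3⟩ := hc
      simp only at h2 h3
      exact Prod.ext (by simp only; omega) (by simp only; omega)
    · rintro ⟨i, j⟩ _; rfl
  rw [e1, e2, e3, mul_assoc, Finset.prod_filter_mul_prod_filter_not,
    Finset.prod_filter_mul_prod_filter_not]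

/-- the complementary beta-number identity -/
theorem key {R : Type*} [CommRing R] (μ : YoungDiagram) (y : R) (n : ℕ) (hn : μ.colLen 0 ≤ n)
    (m : ℕ) :
    (∏ j ∈ range m, (y + j)) * ∏ i ∈ range n, (y - i - 1)
      = (∏ j ∈ range m, (y + j - μ.colLen j)) *
        ∏ i ∈ range n, (y + (min (μ.rowLen i) m : ℕ) - i - 1) := by
  induction m with
  | zero =>
    simp
  | succ m ih =>
    rw [Finset.prod_range_succ, Finset.prod_range_succ]
    have hq : μ.colLen m ≤ n := (μ.colLen_anti 0 m (Nat.zero_le _)).trans hn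
    have hstep : (y + m) * ∏ i ∈ range n, (y + (min (μ.rowLen i) m : ℕ) - i - 1)
        = (y + m - μ.colLen m) * ∏ i ∈ range n, (y + (min (μ.rowLen i) (m + 1) : ℕ) - i - 1) := by
      rw [← Finset.prod_range_mul_prod_Ico _ hq, ← Finset.prod_range_mul_prod_Ico _ hq]
      have a1 : ∏ i ∈ Ico (μ.colLen m) n, (y + (min (μ.rowLen i) m : ℕ) - i - 1)
          = ∏ i ∈ Ico (μ.colLen m) n, (y + (min (μ.rowLen i) (m + 1) : ℕ) - i - 1) := by
        refine Finset.prod_congr rfl fun i hi => ?_
        rw [Finset.mem_Ico] at hi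
        have : ¬ (i, m) ∈ μ := by
          rw [YoungDiagram.mem_iff_lt_colLen]; omega
        rw [YoungDiagram.mem_iff_lt_rowLen] at this
        rw [min_eq_left (by omega), min_eq_left (by omega)]
      have a2 : ∏ i ∈ range (μ.colLen m), (y + (min (μ.rowLen i) m : ℕ) - i - 1)
          = ∏ i ∈ range (μ.colLen m), (y + m - ((i + 1 : ℕ) : R)) := by
        refine Finset.prod_congr rfl fun i hi => ?_
        have : (i, m) ∈ μ := by
          rw [YoungDiagram.mem_iff_lt_colLen]; exact Finset.mem_range.mp hi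
        rw [YoungDiagram.mem_iff_lt_rowLen] at this
        rw [min_eq_right (by omega)]; push_cast; ring
      have a3 : ∏ i ∈ range (μ.colLen m), (y + (min (μ.rowLen i) (m + 1) : ℕ) - i - 1)
          = ∏ i ∈ range (μ.colLen m), (y + m - ((i : ℕ) : R)) := by
        refine Finset.prod_congr rfl fun i hi => ?_
        have : (i, m) ∈ μ := by
          rw [YoungDiagram.mem_iff_lt_colLen]; exact Finset.mem_range.mp hi
        rw [YoungDiagram.mem_iff_lt_rowLen] at this
        rw [min_eq_right (by omega)]; push_cast; ring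
      rw [a1, a2, a3]
      have a4 : (y + m) * ∏ i ∈ range (μ.colLen m), (y + m - ((i + 1 : ℕ) : R))
          = (y + m - μ.colLen m) * ∏ i ∈ range (μ.colLen m), (y + m - ((i : ℕ) : R)) := by
        have b1 := Finset.prod_range_succ' (fun i => (y + m - ((i : ℕ) : R))) (μ.colLen m)
        have b2 := Finset.prod_range_succ (fun i => (y + m - ((i : ℕ) : R))) (μ.colLen m)
        rw [b1] at b2
        simp only [Nat.cast_zero, sub_zero] at b2
        linear_combination b2
      linear_combination (∏ i ∈ Ico (μ.colLen m) n,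
        (y + (min (μ.rowLen i) (m + 1) : ℕ) - i - 1)) * a4
    linear_combination (y + m) * ih + (∏ j ∈ range m, (y + j - μ.colLen j)) * hstep

/-- for `m` the number of columns -/
theorem key' {R : Type*} [CommRing R] (μ : YoungDiagram) (y : R) (n : ℕ) (hn : μ.colLen 0 ≤ n) :
    (∏ j ∈ range (μ.rowLen 0), (y + j)) * ∏ i ∈ range n, (y - i - 1)
      = (∏ j ∈ range (μ.rowLen 0), (y + j - μ.colLen j)) *
        ∏ i ∈ range n, (y + μ.rowLen i - i - 1) := by
  rw [key μ y n hn (μ.rowLen 0)]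
  congr 1
  refine Finset.prod_congr rfl fun i _ => ?_
  rw [min_eq_left (μ.rowLen_anti 0 i (Nat.zero_le _))]

end Pool.Agent.MP_67fd2b_co
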