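import Mathlib
import Pool.Agent.MP_67fd2b_co.Young

namespace Pool.Agent.MP_67fd2b_co

open Finset

variable {K : Type*} [Field K]

/-- `∏ (z + c_sp) / h` -/
def W (z : K) (μ : YoungDiagram) : K :=
  ∏ c ∈ μ.cells, ((z + (cSp μ c : K)) / (hookLen μ c : K))

theorem prod_neg_range' {R : Type*} [CommRing R] (k : ℕ) (f : ℕ → R) :
    ∏ s ∈ range k, (- f s) = (-1) ^ k * ∏ s ∈ range k, f s := by
  rw [Finset.prod_neg, Finset.card_range]

/-- reflection of a product of consecutive terms -/
theorem prod_reflect' {R : Type*} [CommRing R] (k : ℕ) (y : R) :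
    ∏ i ∈ range k, (y - i - 1) = ∏ i ∈ range k, (y - k + i) := by
  rw [← Finset.prod_range_reflect]
  refine Finset.prod_congr rfl fun s hs => ?_
  have hs' : s < k := Finset.mem_range.mp hs
  have : ((k - 1 - s : ℕ) : R) = (k : R) - 1 - s := by
    rw [Nat.sub_sub, Nat.cast_sub (by omega)]; push_cast; ring
  rw [this]; ring

/-- symplectic contents in the first row -/
theorem row_content (μ : YoungDiagram) (n : ℕ) (hn : μ.colLen 0 ≤ n) (c : K) :
    (∏ j ∈ range (μ.rowLen 0), (c + n + j - μ.colLen j)) *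
      ∏ i ∈ range n, (c + n + μ.rowLen i - i - 1)
      = ∏ s ∈ range (n + μ.rowLen 0), (c + s) := by
  rw [← key' μ (c + n) n hn, Finset.prod_range_add, prod_reflect', mul_comm]
  congr 1
  · refine Finset.prod_congr rfl fun s _ => by ring
  · refine Finset.prod_congr rfl fun s _ => by push_cast; ring

open Polynomial in
/-- hook lengths in the first row -/
theorem row_hook [CharZero K] (μ : YoungDiagram) (n m : ℕ) (hn : μ.colLen 0 ≤ n + 1)
    (hm : μ.rowLen 0 = m + 1) :
    (∏ j ∈ range (m + 1), ((m : K) - j + μ.colLen j)) *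
      ∏ i ∈ range n, ((m : K) + 1 - μ.rowLen (i + 1) + (i + 1))
      = ∏ s ∈ range (m + 1 + n), (1 + (s : K)) := by
  have h := key' μ (X : K[X]) (n + 1) hn
  rw [hm, Finset.prod_range_succ (fun j => ((X : K[X]) + (j : K[X]))) m,
    Finset.prod_range_succ' (fun i => ((X : K[X]) + (μ.rowLen i : K[X]) - (i : K[X]) - 1)) n, hm] at h
  have hx : (X : K[X]) + ((m + 1 : ℕ) : K[X]) - ((0 : ℕ) : K[X]) - 1 = X + (m : K[X]) := by
    push_cast; ring
  rw [hx] at h
  have hne : (X : K[X]) + (m : K[X]) ≠ 0 := by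
    intro h0
    have := congrArg (Polynomial.coeff · 1) h0
    simp [Polynomial.coeff_X, Polynomial.coeff_natCast_ite] at this
  have h2 : (∏ j ∈ range m, ((X : K[X]) + (j : K[X]))) * (∏ i ∈ range (n + 1), ((X : K[X]) - (i : K[X]) - 1))
      = (∏ j ∈ range (m + 1), ((X : K[X]) + (j : K[X]) - (μ.colLen j : K[X]))) *
        ∏ i ∈ range n, ((X : K[X]) + (μ.rowLen (i + 1) : K[X]) - ((i + 1 : ℕ) : K[X]) - 1) := by
    apply mul_left_cancel₀ hne
    linear_combination h
  have h3 := congrArg (Polynomial.eval (-(m : K))) h2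
  simp only [Polynomial.eval_mul, Polynomial.eval_prod, Polynomial.eval_add, Polynomial.eval_sub,
    Polynomial.eval_X, Polynomial.eval_natCast, Polynomial.eval_one] at h3
  have a1 : ∏ j ∈ range m, (-(m : K) + j) = (-1) ^ m * ∏ s ∈ range m, (1 + (s : K)) := by
    rw [← prod_neg_range', ← Finset.prod_range_reflect]
    refine Finset.prod_congr rfl fun s hs => ?_
    have hs' : s < m := Finset.mem_range.mp hs
    have : ((m - 1 - s : ℕ) : K) = (m : K) - 1 - s := by
      rw [Nat.sub_sub, Nat.cast_sub (by omega)]; push_cast; ring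
    rw [this]; ring
  have a2 : ∏ i ∈ range (n + 1), (-(m : K) - i - 1)
      = (-1) ^ (n + 1) * ∏ i ∈ range (n + 1), (1 + ((m + i : ℕ) : K)) := by
    rw [← prod_neg_range']
    exact Finset.prod_congr rfl fun s _ => by push_cast; ring
  have a3 : ∏ j ∈ range (m + 1), (-(m : K) + j - μ.colLen j)
      = (-1) ^ (m + 1) * ∏ j ∈ range (m + 1), ((m : K) - j + μ.colLen j) := by
    rw [← prod_neg_range']
    exact Finset.prod_congr rfl fun s _ => by ring
  have a4 : ∏ i ∈ range n, (-(m : K) + μ.rowLen (i + 1) - ((i + 1 : ℕ) : K) - 1)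
      = (-1) ^ n * ∏ i ∈ range n, ((m : K) + 1 - μ.rowLen (i + 1) + (i + 1)) := by
    rw [← prod_neg_range']
    exact Finset.prod_congr rfl fun s _ => by push_cast; ring
  rw [a1, a2, a3, a4] at h3
  have a5 : ∏ s ∈ range (m + 1 + n), (1 + (s : K))
      = (∏ s ∈ range m, (1 + (s : K))) * ∏ i ∈ range (n + 1), (1 + ((m + i : ℕ) : K)) := by
    rw [show m + 1 + n = m + (n + 1) by ring, Finset.prod_range_add]
  rw [a5]
  have hs : ((-1 : K) ^ (m + n + 1)) ≠ 0 := pow_ne_zero _ (by simp)
  apply mul_left_cancel₀ hs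
  have p1 : ((-1 : K) ^ (m + n + 1)) = (-1) ^ m * (-1) ^ (n + 1) := by rw [← pow_add]; rfl
  have p2 : ((-1 : K) ^ (m + n + 1)) = (-1) ^ (m + 1) * (-1) ^ n := by
    rw [← pow_add]; congr 1; ring
  conv_rhs => rw [p1]
  conv_lhs => rw [p2]
  linear_combination -h3

/-- `L_i = λ_i + N - 1 - i` with `N = n + 1` -/
def LL (μ : YoungDiagram) (n i : ℕ) : K := (μ.rowLen i : K) + n - i

theorem W_peel [CharZero K] (z : K) (hz : ∀ n : ℤ, z ≠ n) (μ : YoungDiagram) (n m : ℕ)
    (hn : μ.colLen 0 = n + 1) (hm : μ.rowLen 0 = m + 1) :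
    W z μ * (∏ s ∈ range (m + 1 + n), (1 + (s : K))) *
        ∏ i ∈ range n, ((z - 2 * n + LL μ n (i + 1)) * LL μ n (i + 1))
      = W z (peel μ) * (∏ s ∈ range (m + 1 + n), (z - 2 * n + (s : K))) *
        ∏ i ∈ range n, ((LL μ n 0 - LL μ n (i + 1)) * (z - 2 * n + LL μ n 0 + LL μ n (i + 1))) := by
  set c : K := z - 2 * n with hc
  have hcn : ∀ k : ℤ, c ≠ k := by
    intro k hk
    apply hz (k + 2 * n)
    push_cast; rw [← hk, hc]; ring
  have hW : W z μ = (∏ j ∈ range (m + 1), ((c + (n + 1 : ℕ) + j - μ.colLen j) /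
        ((m : K) - j + μ.colLen j))) *
      (∏ i ∈ range n, ((c + LL μ n 0 + LL μ n (i + 1)) / LL μ n (i + 1))) * W z (peel μ) := by
    unfold W
    rw [prod_cells_peel, hm, hn, Nat.add_sub_cancel]
    congr 1
    · congr 1
      · refine Finset.prod_congr rfl fun j _ => ?_
        congr 1
        · simp only [cSp, not_lt_zero, if_false, hn, hc, CharP.cast_eq_zero]
          push_cast; ring
        · simp only [hookLen, hm]
          push_cast; ring
      · refine Finset.prod_congr rfl fun i _ => ?_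
        congr 1
        · simp only [cSp, Nat.succ_pos', if_true, hc, LL, hm]
          push_cast; ring
        · simp only [hookLen, hn, LL]
          push_cast; ring
    · refine Finset.prod_congr rfl fun x hx => ?_
      rw [YoungDiagram.mem_cells] at hx
      rw [hookLen_peel μ hx, cSp_peel μ hx]
  have hrow := row_content μ (n + 1) hn.le c
  rw [hm, Finset.prod_range_succ' (fun i => (c + ((n + 1 : ℕ) : K) + μ.rowLen i - i - 1)) n, hm] at hrow
  have hrow2 : (∏ j ∈ range (m + 1), (c + ((n + 1 : ℕ) : K) + j - μ.colLen j)) *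
      ∏ i ∈ range n, (c + LL μ n (i + 1)) = ∏ s ∈ range (m + 1 + n), (c + (s : K)) := by
    have e1 : ∏ i ∈ range n, (c + ((n + 1 : ℕ) : K) + μ.rowLen (i + 1) - ((i + 1 : ℕ) : K) - 1)
        = ∏ i ∈ range n, (c + LL μ n (i + 1)) :=
      Finset.prod_congr rfl fun i _ => by unfold LL; push_cast; ring
    rw [e1, show n + 1 + (m + 1) = (m + 1 + n) + 1 by ring,
      Finset.prod_range_succ (fun s => (c + (s : K))) (m + 1 + n)] at hrow
    have hne : c + ((m + 1 + n : ℕ) : K) ≠ 0 := by
      intro h0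
      apply hcn (-(m + 1 + n : ℕ))
      push_cast at h0 ⊢; linear_combination h0
    apply mul_right_cancel₀ hne
    rw [← hrow]; push_cast; ring
  have hhook := row_hook (K := K) μ n m hn.le hm
  have hhook2 : (∏ j ∈ range (m + 1), ((m : K) - j + μ.colLen j)) *
      ∏ i ∈ range n, (LL μ n 0 - LL μ n (i + 1)) = ∏ s ∈ range (m + 1 + n), (1 + (s : K)) := by
    rw [← hhook]; congr 1
    exact Finset.prod_congr rfl fun i _ => by unfold LL; rw [hm]; push_cast; ring
  have hFL : ∏ s ∈ range (m + 1 + n), (1 + (s : K)) ≠ 0 := by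
    refine Finset.prod_ne_zero_iff.mpr fun s _ => ?_
    have : ((1 + s : ℕ) : K) ≠ 0 := by exact_mod_cast (by omega)
    push_cast at this; exact this
  have hB : (∏ j ∈ range (m + 1), ((m : K) - j + μ.colLen j)) ≠ 0 := by
    intro h0; rw [h0, zero_mul] at hhook2; exact hFL hhook2.symm
  have hLne : ∏ i ∈ range n, (LL μ n (i + 1) : K) ≠ 0 := by
    refine Finset.prod_ne_zero_iff.mpr fun i hi => ?_
    have hi' : i < n := Finset.mem_range.mp hi
    have h1 : (i + 1, 0) ∈ μ := by rw [YoungDiagram.mem_iff_lt_colLen]; omega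
    rw [YoungDiagram.mem_iff_lt_rowLen] at h1
    unfold LL
    have : ((μ.rowLen (i + 1) + n - (i + 1) : ℕ) : K) ≠ 0 := by exact_mod_cast (by omega)
    rw [Nat.cast_sub (by omega)] at this
    push_cast at this ⊢; exact this
  rw [hW, Finset.prod_div_distrib, Finset.prod_div_distrib, Finset.prod_mul_distrib,
    Finset.prod_mul_distrib]
  rw [← hhook2, ← hrow2]
  field_simp

end Pool.Agent.MP_67fd2b_co
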