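import Mathlib
import Pool.Agent.MP_67fd2b_co.Young2

namespace Pool.Agent.MP_67fd2b_co

open Finset

variable {K : Type*} [Field K]

theorem V_succ {n : ℕ} (x : Fin (n + 1) → K) :
    V x = (∏ i : Fin n, (x 0 - x i.succ)) * V (fun i : Fin n => x i.succ) := by
  unfold V
  rw [Fin.prod_univ_succ]
  congr 1
  · rw [Fin.prod_univ_succ]; simp
  · refine Finset.prod_congr rfl fun a _ => ?_
    rw [Fin.prod_univ_succ]; simp

theorem V_castSucc {n : ℕ} (x : Fin (n + 1) → K) :
    V x = V (fun i : Fin n => x i.castSucc) * (∏ i : Fin n, (x i.castSucc - x (Fin.last n))) := by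
  unfold V
  rw [Fin.prod_univ_castSucc]
  have h1 : ∏ b, (if Fin.last n < b then x (Fin.last n) - x b else 1) = 1 := by
    refine Finset.prod_eq_one fun b _ => ?_
    rw [if_neg (not_lt.mpr (Fin.le_last b))]
  rw [h1, mul_one, ← Finset.prod_mul_distrib]
  refine Finset.prod_congr rfl fun a _ => ?_
  rw [Fin.prod_univ_castSucc, if_pos (Fin.castSucc_lt_last a)]
  simp

theorem cf_zero (c : K) : cf c 0 = 1 := by simp [cf]

theorem cf_succ (c : K) (n : ℕ) : cf c (n + 1) = cf c n * ((c + n) / (1 + n)) := by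
  unfold cf; rw [Finset.prod_range_succ]

theorem one_add_ne [CharZero K] (n : ℕ) : (1 + (n : K)) ≠ 0 := by
  have : ((1 + n : ℕ) : K) ≠ 0 := by exact_mod_cast (by omega)
  push_cast at this; exact this

theorem cf_shift [CharZero K] (c : K) (p : ℕ) :
    cf c (p + 1) * ((c + ((p + 1 : ℕ) : K)) * ((p + 1 : ℕ) : K)) = c * (c + 1) * cf (c + 2) p := by
  induction p with
  | zero => rw [cf_succ, cf_zero, cf_zero]; push_cast; simp
  | succ p ih =>
    rw [cf_succ c (p + 1), cf_succ (c + 2) p]
    have h1 := one_add_ne (K := K) p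
    have h2 := one_add_ne (K := K) (p + 1)
    push_cast at h2 ih ⊢
    have h2' : (p : K) + 1 + 1 ≠ 0 := by intro h; apply h2; linear_combination h
    have e : cf c (p + 1) * ((c + ((p : K) + 1)) / (1 + ((p : K) + 1))) *
        ((c + ((p : K) + 1 + 1)) * ((p : K) + 1 + 1)) =
        cf c (p + 1) * (c + ((p : K) + 1)) * (c + ((p : K) + 1 + 1)) := by
      field_simp
      ring
    rw [e]
    have e2 : c * (c + 1) * (cf (c + 2) p * ((c + 2 + (p : K)) / (1 + p)))
        = (c * (c + 1) * cf (c + 2) p) * ((c + 2 + (p : K)) / (1 + p)) := by ring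
    rw [e2, ← ih]
    field_simp
    ring

theorem cf_mul [CharZero K] (c : K) (n : ℕ) :
    cf c n * ∏ s ∈ range n, (1 + (s : K)) = ∏ s ∈ range n, (c + (s : K)) := by
  unfold cf
  rw [← Finset.prod_mul_distrib]
  refine Finset.prod_congr rfl fun s _ => ?_
  rw [div_mul_cancel₀ _ (one_add_ne s)]

/-- the beta numbers in decreasing order -/
def L (μ : YoungDiagram) (N : ℕ) (i : Fin N) : ℕ := μ.rowLen i + (N - 1 - i)

/-- the normalising constant -/
def KK (z : K) : ℕ → K
  | 0 => 1
  | n + 1 => KK z n * ((z - 2 * n) * (z - 2 * n + 1)) ^ n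

theorem G_shift_prod [CharZero K] (c : K) {n : ℕ} (l p : Fin n → ℕ) (h : ∀ i, l i = p i + 1) :
    G c l * ∏ i, ((c + (l i : K)) * (l i : K)) = (c * (c + 1)) ^ n * G (c + 2) p := by
  unfold G
  have e1 : (fun i => ((l i : K) + c / 2) ^ 2) = fun i => ((p i : K) + (c + 2) / 2) ^ 2 := by
    funext i; rw [h i]; push_cast; ring
  rw [e1, mul_assoc, ← Finset.prod_mul_distrib]
  have e2 : ∏ i, (cf c (l i) * ((c + (l i : K)) * (l i : K))) = ∏ i, (c * (c + 1) * cf (c + 2) (p i)) := by
    refine Finset.prod_congr rfl fun i _ => ?_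
    rw [h i]; exact cf_shift c (p i)
  rw [e2, Finset.prod_mul_distrib, Finset.prod_const, Finset.card_univ, Fintype.card_fin]
  ring

theorem W_eq_G [CharZero K] (z : K) (hz : ∀ n : ℤ, z ≠ n) (N : ℕ) :
    ∀ μ : YoungDiagram, μ.colLen 0 ≤ N → W z μ * KK z N = G (z + 2 - 2 * N) (L μ N) := by
  induction N with
  | zero =>
    intro μ hμ
    have hcells : μ.cells = ∅ := by
      rw [Finset.eq_empty_iff_forall_notMem]
      rintro ⟨i, j⟩ hx
      rw [YoungDiagram.mem_cells, YoungDiagram.mem_iff_lt_colLen] at hx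
      have := μ.colLen_anti 0 j (Nat.zero_le _)
      omega
    simp [W, hcells, KK, G, V]
  | succ n ih =>
    intro μ hμ
    set c : K := z - 2 * n with hc
    have hcN : z + 2 - 2 * ((n + 1 : ℕ) : K) = c := by rw [hc]; push_cast; ring
    have hcn : z + 2 - 2 * (n : K) = c + 2 := by rw [hc]; ring
    have hcint : ∀ k : ℤ, c ≠ k := by
      intro k hk
      apply hz (k + 2 * n)
      push_cast; rw [← hk, hc]; ring
    rw [hcN]
    show W z μ * (KK z n * (c * (c + 1)) ^ n) = _
    rcases Nat.lt_or_ge n (μ.colLen 0) with hlt | hle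
    · have hcol : μ.colLen 0 = n + 1 := by omega
      have hpos : 0 < μ.rowLen 0 := by
        have : (0, 0) ∈ μ := by rw [YoungDiagram.mem_iff_lt_colLen]; omega
        rwa [YoungDiagram.mem_iff_lt_rowLen] at this
      obtain ⟨m, hm⟩ : ∃ m, μ.rowLen 0 = m + 1 := ⟨μ.rowLen 0 - 1, by omega⟩
      have hpe : (peel μ).colLen 0 ≤ n := by
        rw [colLen_peel]
        have := μ.colLen_anti 0 (0 + 1) (Nat.zero_le _)
        omega
      have hIH := ih (peel μ) hpe
      rw [hcn] at hIH
      have hpl : ∀ i : Fin n, L μ (n + 1) i.succ = L (peel μ) n i + 1 := by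
        intro i
        unfold L
        rw [rowLen_peel]
        have h1 : ((i : ℕ) + 1, 0) ∈ μ := by
          rw [YoungDiagram.mem_iff_lt_colLen]; have := i.2; omega
        rw [YoungDiagram.mem_iff_lt_rowLen] at h1
        simp only [Fin.val_succ]
        have := i.2
        omega
      have hl0 : L μ (n + 1) 0 = m + 1 + n := by
        unfold L; simp [hm]
      -- expand `G` along the first entry
      have hG : G c (L μ (n + 1)) = (∏ i : Fin n, (((L μ (n + 1) 0 : K) - L μ (n + 1) i.succ) *
          ((L μ (n + 1) 0 : K) + L μ (n + 1) i.succ + c))) * cf c (L μ (n + 1) 0) *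
          G c (fun i : Fin n => L μ (n + 1) i.succ) := by
        unfold G
        rw [V_succ, Fin.prod_univ_succ]
        have e : ∏ i : Fin n, (((L μ (n + 1) 0 : K) + c / 2) ^ 2 -
            ((L μ (n + 1) i.succ : K) + c / 2) ^ 2)
            = ∏ i : Fin n, (((L μ (n + 1) 0 : K) - L μ (n + 1) i.succ) *
          ((L μ (n + 1) 0 : K) + L μ (n + 1) i.succ + c)) :=
          Finset.prod_congr rfl fun i _ => by ring
        rw [e]; ring
      have hGs := G_shift_prod c (fun i : Fin n => L μ (n + 1) i.succ) (L (peel μ) n) hpl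
      have hW := W_peel z hz μ n m hcol hm
      rw [← hc] at hW
      have eLL : ∀ i : Fin n, (LL μ n ((i : ℕ) + 1) : K) = (L μ (n + 1) i.succ : K) := by
        intro i
        unfold LL L
        have := i.2
        simp only [Fin.val_succ, Nat.add_sub_cancel]
        rw [show μ.rowLen ((i : ℕ) + 1) + (n - ((i : ℕ) + 1)) =
          μ.rowLen ((i : ℕ) + 1) + n - ((i : ℕ) + 1) by omega, Nat.cast_sub (by omega)]
        push_cast; ring
      have eLL0 : (LL μ n 0 : K) = (L μ (n + 1) 0 : K) := by
        unfold LL L; simp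
      have p1 : ∏ i ∈ range n, ((c + LL μ n (i + 1)) * LL μ n (i + 1))
          = ∏ i : Fin n, ((c + (L μ (n + 1) i.succ : K)) * (L μ (n + 1) i.succ : K)) := by
        rw [← Fin.prod_univ_eq_prod_range (fun i => (c + LL μ n (i + 1)) * LL μ n (i + 1)) n]
        exact Finset.prod_congr rfl fun i _ => by rw [eLL]
      have p2 : ∏ i ∈ range n, ((LL μ n 0 - LL μ n (i + 1)) * (c + LL μ n 0 + LL μ n (i + 1)))
          = ∏ i : Fin n, (((L μ (n + 1) 0 : K) - L μ (n + 1) i.succ) *
          ((L μ (n + 1) 0 : K) + L μ (n + 1) i.succ + c)) := by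
        rw [← Fin.prod_univ_eq_prod_range
          (fun i => (LL μ n 0 - LL μ n (i + 1)) * (c + LL μ n 0 + LL μ n (i + 1))) n]
        exact Finset.prod_congr rfl fun i _ => by rw [eLL, eLL0]; ring
      rw [p1, p2] at hW
      have hcf := cf_mul c (m + 1 + n)
      rw [← hl0] at hcf hW
      have hFL : ∏ s ∈ range (L μ (n + 1) 0), (1 + (s : K)) ≠ 0 :=
        Finset.prod_ne_zero_iff.mpr fun s _ => one_add_ne s
      have hD : ∏ i : Fin n, ((c + (L μ (n + 1) i.succ : K)) * (L μ (n + 1) i.succ : K)) ≠ 0 := by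
        refine Finset.prod_ne_zero_iff.mpr fun i _ => mul_ne_zero ?_ ?_
        · intro h0
          apply hcint (-(L μ (n + 1) i.succ : ℕ))
          push_cast; linear_combination h0
        · rw [hpl]; exact Nat.cast_ne_zero.mpr (Nat.succ_ne_zero _)
      apply mul_right_cancel₀ hFL
      apply mul_right_cancel₀ hD
      rw [hG]
      linear_combination (KK z n * (c * (c + 1)) ^ n) * hW +
        ((c * (c + 1)) ^ n * (∏ s ∈ range (L μ (n + 1) 0), (c + (s : K))) *
          (∏ i : Fin n, (((L μ (n + 1) 0 : K) - L μ (n + 1) i.succ) *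
          ((L μ (n + 1) 0 : K) + L μ (n + 1) i.succ + c)))) * hIH
        - ((∏ i : Fin n, (((L μ (n + 1) 0 : K) - L μ (n + 1) i.succ) *
          ((L μ (n + 1) 0 : K) + L μ (n + 1) i.succ + c))) *
          (∏ s ∈ range (L μ (n + 1) 0), (1 + (s : K))) * cf c (L μ (n + 1) 0)) * hGs
        - ((c * (c + 1)) ^ n * G (c + 2) (L (peel μ) n) *
          (∏ i : Fin n, (((L μ (n + 1) 0 : K) - L μ (n + 1) i.succ) *
          ((L μ (n + 1) 0 : K) + L μ (n + 1) i.succ + c)))) * hcf
    · have hIH := ih μ hle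
      rw [hcn] at hIH
      have hrow : μ.rowLen n = 0 := by
        by_contra h
        have : (n, 0) ∈ μ := by rw [YoungDiagram.mem_iff_lt_rowLen]; omega
        rw [YoungDiagram.mem_iff_lt_colLen] at this
        omega
      have hpl : ∀ i : Fin n, L μ (n + 1) i.castSucc = L μ n i + 1 := by
        intro i
        unfold L
        have := i.2
        simp only [Fin.val_castSucc]
        omega
      have hlast : L μ (n + 1) (Fin.last n) = 0 := by
        unfold L; simp [hrow]
      have hG : G c (L μ (n + 1)) = G c (fun i : Fin n => L μ (n + 1) i.castSucc) *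
          ∏ i : Fin n, ((c + (L μ (n + 1) i.castSucc : K)) * (L μ (n + 1) i.castSucc : K)) := by
        unfold G
        rw [V_castSucc, Fin.prod_univ_castSucc, hlast, cf_zero]
        have e : ∏ i : Fin n, (((L μ (n + 1) i.castSucc : K) + c / 2) ^ 2 -
            (((0 : ℕ) : K) + c / 2) ^ 2)
            = ∏ i : Fin n, ((c + (L μ (n + 1) i.castSucc : K)) * (L μ (n + 1) i.castSucc : K)) :=
          Finset.prod_congr rfl fun i _ => by push_cast; ring
        rw [e]; ring
      rw [hG, G_shift_prod c (fun i : Fin n => L μ (n + 1) i.castSucc) (L μ n) hpl, ← hIH]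
      ring

theorem KK_ne_zero [CharZero K] (z : K) (hz : ∀ n : ℤ, z ≠ n) (N : ℕ) : KK z N ≠ 0 := by
  induction N with
  | zero => simp [KK]
  | succ n ih =>
    refine mul_ne_zero ih (pow_ne_zero _ (mul_ne_zero ?_ ?_))
    · intro h; apply hz (2 * n); push_cast; linear_combination h
    · intro h; apply hz (2 * n - 1); push_cast; linear_combination h

end Pool.Agent.MP_67fd2b_co
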