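import Mathlib
import Pool.Agent.MP_67fd2b_co.Young3
import Pool.Agent.MP_67fd2b_co.Rec2

namespace Pool.Agent.MP_67fd2b_co

open Finset

theorem colLen_le_card (μ : YoungDiagram) (j : ℕ) : μ.colLen j ≤ μ.card := by
  rw [YoungDiagram.colLen_eq_card]
  exact Finset.card_le_card (Finset.filter_subset _ _)

theorem rowLen_le_card (μ : YoungDiagram) (i : ℕ) : μ.rowLen i ≤ μ.card := by
  rw [YoungDiagram.rowLen_eq_card]
  exact Finset.card_le_card (Finset.filter_subset _ _)

theorem finite_yd (m : ℕ) : {μ : YoungDiagram | μ.card = m}.Finite := by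
  have h : Set.Finite (YoungDiagram.cells '' {μ : YoungDiagram | μ.card = m}) := by
    refine Set.Finite.subset (Finset.finite_toSet ((range m ×ˢ range m).powerset)) ?_
    rintro _ ⟨μ, hμ, rfl⟩
    rw [Finset.mem_coe, Finset.mem_powerset]
    rintro ⟨i, j⟩ hc
    rw [YoungDiagram.mem_cells] at hc
    have h1 := YoungDiagram.mem_iff_lt_rowLen.mp hc
    have h2 := YoungDiagram.mem_iff_lt_colLen.mp hc
    have h3 := rowLen_le_card μ i
    have h4 := colLen_le_card μ j
    have h5 : μ.card = m := hμ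
    rw [Finset.mem_product, Finset.mem_range, Finset.mem_range]
    simp only; omega
  refine Set.Finite.of_finite_image h ?_
  intro a _ b _ hab
  exact YoungDiagram.ext hab

/-- Young diagrams with `m` cells -/
noncomputable def ydFin (m : ℕ) : Finset YoungDiagram := (finite_yd m).toFinset

theorem mem_ydFin {m : ℕ} {μ : YoungDiagram} : μ ∈ ydFin m ↔ μ.card = m := by
  simp [ydFin]

theorem card_eq_sum_rowLen (μ : YoungDiagram) (N : ℕ) (hN : μ.colLen 0 ≤ N) :
    μ.card = ∑ i : Fin N, μ.rowLen i := by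
  rw [Fin.sum_univ_eq_sum_range (fun i => μ.rowLen i) N]
  have : μ.card = ∑ i ∈ range N, (μ.cells.filter (fun c => c.1 = i)).card := by
    apply Finset.card_eq_sum_card_fiberwise
    rintro ⟨i, j⟩ hc
    rw [Finset.mem_coe, YoungDiagram.mem_cells, YoungDiagram.mem_iff_lt_colLen] at hc
    have := μ.colLen_anti 0 j (Nat.zero_le _)
    rw [Finset.mem_coe, Finset.mem_range]; simp only; omega
  rw [this]
  refine Finset.sum_congr rfl fun i _ => ?_
  rw [YoungDiagram.rowLen_eq_card]; rfl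

theorem sum_refl_range (N : ℕ) : 2 * ∑ i : Fin N, (N - 1 - (i : ℕ)) = N * (N - 1) := by
  rw [Fin.sum_univ_eq_sum_range (fun i => N - 1 - i) N, Finset.sum_range_reflect (fun i => i) N,
    mul_comm, Finset.sum_range_id_mul_two]

theorem L_strictAnti (μ : YoungDiagram) (N : ℕ) : StrictAnti (L μ N) := by
  intro i j hij
  unfold L
  have h1 := μ.rowLen_anti i j (le_of_lt hij)
  have h2 : (i : ℕ) < j := hij
  have := j.2
  omega

theorem L_sum (μ : YoungDiagram) (N : ℕ) (hN : μ.colLen 0 ≤ N) :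
    2 * ∑ i, L μ N i = 2 * μ.card + N * (N - 1) := by
  unfold L
  rw [Finset.sum_add_distrib, mul_add, sum_refl_range, ← card_eq_sum_rowLen μ N hN]

/-- Young diagram with prescribed row lengths -/
def ofRows (N : ℕ) (a : ℕ → ℕ) (ha : Antitone a) : YoungDiagram where
  cells := (range N ×ˢ range (a 0)).filter (fun c => c.2 < a c.1)
  isLowerSet := by
    rintro ⟨i, j⟩ ⟨i', j'⟩ h hc
    rw [Prod.mk_le_mk] at h
    rw [Finset.mem_coe, Finset.mem_filter, Finset.mem_product, Finset.mem_range,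
      Finset.mem_range] at hc ⊢
    simp only at hc ⊢
    have h1 := ha h.1
    have h2 := ha (Nat.zero_le i')
    omega

theorem mem_ofRows {N : ℕ} {a : ℕ → ℕ} {ha : Antitone a} {i j : ℕ} :
    (i, j) ∈ ofRows N a ha ↔ i < N ∧ j < a i := by
  show (i, j) ∈ (ofRows N a ha).cells ↔ _
  unfold ofRows
  rw [Finset.mem_filter, Finset.mem_product, Finset.mem_range, Finset.mem_range]
  have h2 := ha (Nat.zero_le i)
  simp only
  omega

theorem rowLen_ofRows {N : ℕ} {a : ℕ → ℕ} {ha : Antitone a} {i : ℕ} (hi : i < N) :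
    (ofRows N a ha).rowLen i = a i := by
  apply rowLen_eq_of
  intro j
  rw [mem_ofRows]; simp [hi]

theorem colLen_ofRows {N : ℕ} {a : ℕ → ℕ} {ha : Antitone a} :
    (ofRows N a ha).colLen 0 ≤ N := by
  by_contra h
  push Not at h
  have : (N, 0) ∈ ofRows N a ha := by rw [YoungDiagram.mem_iff_lt_colLen]; exact h
  rw [mem_ofRows] at this
  omega

/-- every strictly decreasing tuple is the tuple of beta numbers of a diagram -/
theorem exists_L {N : ℕ} (q : Fin N → ℕ) (hq : StrictAnti q) :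
    ∃ μ : YoungDiagram, μ.colLen 0 ≤ N ∧ L μ N = q := by
  have hge : ∀ i : Fin N, N - 1 - (i : ℕ) ≤ q i := by
    intro i
    have key : ∀ d : ℕ, ∀ i : Fin N, N - 1 - (i : ℕ) = d → d ≤ q i := by
      intro d
      induction d with
      | zero => intro i _; exact Nat.zero_le _
      | succ d ih =>
        intro i hi
        have hi1 : (i : ℕ) + 1 < N := by omega
        have h1 := ih ⟨i + 1, hi1⟩ (by simp only; omega)
        have h2 : q ⟨i + 1, hi1⟩ < q i := hq (by
          rw [Fin.lt_def]; simp)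
        omega
    exact key _ i rfl
  let a : ℕ → ℕ := fun i => if h : i < N then q ⟨i, h⟩ - (N - 1 - i) else 0
  have ha : Antitone a := by
    apply antitone_nat_of_succ_le
    intro n
    show (if h : n + 1 < N then q ⟨n + 1, h⟩ - (N - 1 - (n + 1)) else 0)
      ≤ (if h : n < N then q ⟨n, h⟩ - (N - 1 - n) else 0)
    by_cases h1 : n + 1 < N
    · have h2 : n < N := by omega
      rw [dif_pos h1, dif_pos h2]
      have h3 : q ⟨n + 1, h1⟩ < q ⟨n, h2⟩ := hq (by rw [Fin.lt_def]; simp)
      have h4 := hge ⟨n, h2⟩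
      simp only at h4
      omega
    · rw [dif_neg h1]; exact Nat.zero_le _
  refine ⟨ofRows N a ha, colLen_ofRows, ?_⟩
  funext i
  unfold L
  rw [rowLen_ofRows i.2]
  show (if h : (i : ℕ) < N then q ⟨i, h⟩ - (N - 1 - i) else 0) + (N - 1 - (i : ℕ)) = q i
  rw [dif_pos i.2]
  have := hge i
  simp only [Fin.eta]
  omega

theorem eq_of_L_eq {μ ν : YoungDiagram} {N : ℕ} (hμ : μ.colLen 0 ≤ N) (hν : ν.colLen 0 ≤ N)
    (h : L μ N = L ν N) : μ = ν := by
  have hrow : ∀ i < N, μ.rowLen i = ν.rowLen i := by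
    intro i hi
    have := congrFun h ⟨i, hi⟩
    unfold L at this
    simp only at this
    omega
  have hc : ∀ (κ : YoungDiagram), κ.colLen 0 ≤ N → ∀ i j, (i, j) ∈ κ → i < N := by
    intro κ hκ i j hx
    rw [YoungDiagram.mem_iff_lt_colLen] at hx
    have := κ.colLen_anti 0 j (Nat.zero_le _)
    omega
  apply YoungDiagram.ext
  ext ⟨i, j⟩
  rw [YoungDiagram.mem_cells, YoungDiagram.mem_cells]
  constructor
  · intro hx
    have hi := hc μ hμ i j hx
    rw [YoungDiagram.mem_iff_lt_rowLen] at hx ⊢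
    rwa [← hrow i hi]
  · intro hx
    have hi := hc ν hν i j hx
    rw [YoungDiagram.mem_iff_lt_rowLen] at hx ⊢
    rwa [hrow i hi]

theorem sum_tuples {K : Type*} [Field K] [CharZero K] {N m : ℕ} (hm : m ≤ N) (M : ℕ)
    (hM : 2 * M = 2 * m + N * (N - 1)) (φ : (Fin N → ℕ) → K)
    (hsym : ∀ l (σ : Equiv.Perm (Fin N)), φ (l ∘ σ) = φ l)
    (hzero : ∀ l, ¬ Function.Injective l → φ l = 0) :
    ∑ l ∈ S N M, φ l = (N.factorial : K) * ∑ μ ∈ ydFin m, φ (L μ N) := by
  classical
  have h1 : ∑ l ∈ S N M, φ l = ∑ l ∈ (S N M).filter Function.Injective, φ l := by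
    rw [Finset.sum_filter]
    refine Finset.sum_congr rfl fun l _ => ?_
    split_ifs with h
    · rfl
    · exact hzero l h
  have hcol : ∀ μ ∈ ydFin m, μ.colLen 0 ≤ N := by
    intro μ hμ
    rw [mem_ydFin] at hμ
    have := colLen_le_card μ 0
    omega
  have h2 : (N.factorial : K) * ∑ μ ∈ ydFin m, φ (L μ N)
      = ∑ x ∈ ydFin m ×ˢ (univ : Finset (Equiv.Perm (Fin N))), φ (L x.1 N ∘ x.2) := by
    rw [Finset.sum_product, Finset.mul_sum]
    refine Finset.sum_congr rfl fun μ _ => ?_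
    rw [Finset.sum_congr rfl (fun σ _ => hsym (L μ N) σ), Finset.sum_const, Finset.card_univ,
      Fintype.card_perm, Fintype.card_fin, nsmul_eq_mul]
  rw [h1, h2]
  symm
  refine Finset.sum_nbij (fun x => L x.1 N ∘ x.2) ?_ ?_ ?_ (fun _ _ => rfl)
  · rintro ⟨μ, σ⟩ hx
    rw [Finset.mem_product] at hx
    have hc := hcol μ hx.1
    have hcard : μ.card = m := mem_ydFin.mp hx.1
    rw [Finset.mem_filter, mem_S]
    refine ⟨?_, (L_strictAnti μ N).injective.comp σ.injective⟩
    have h3 : ∑ i, (L μ N ∘ σ) i = ∑ i, L μ N i := Equiv.sum_comp σ (L μ N)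
    have h4 := L_sum μ N hc
    simp only
    rw [h3]; omega
  · rintro ⟨μ, σ⟩ hx ⟨ν, τ⟩ hy hxy
    rw [Finset.mem_coe, Finset.mem_product] at hx hy
    simp only at hxy
    have hcμ := hcol μ hx.1
    have hcν := hcol ν hy.1
    have e1 : (L μ N ∘ σ) ∘ (σ⁻¹ : Equiv.Perm (Fin N)) = L μ N := by
      funext i; simp
    have e2 : (L μ N ∘ σ) ∘ (τ⁻¹ : Equiv.Perm (Fin N)) = L ν N := by
      rw [hxy]; funext i; simp
    have h5 : L μ N = L ν N := by
      rw [← e1, ← e2]
      apply Tuple.unique_antitone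
      · rw [e1]; exact (L_strictAnti μ N).antitone
      · rw [e2]; exact (L_strictAnti ν N).antitone
    have h6 : μ = ν := eq_of_L_eq hcμ hcν h5
    subst h6
    have h7 : σ = τ := by
      ext i
      have := congrFun hxy i
      exact congrArg _ ((L_strictAnti μ N).injective this)
    rw [h7]
  · intro l hl
    rw [Finset.mem_coe, Finset.mem_filter, mem_S] at hl
    obtain ⟨hsum, hinj⟩ := hl
    have hmono : StrictMono (l ∘ Tuple.sort l) :=
      (Tuple.monotone_sort l).strictMono_of_injective (hinj.comp (Tuple.sort l).injective)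
    have hanti : StrictAnti (l ∘ Tuple.sort l ∘ Fin.revPerm) := by
      intro i j hij
      exact hmono (by simpa using Fin.rev_lt_rev.mpr hij)
    obtain ⟨μ, hμ, hL⟩ := exists_L _ hanti
    have hperm : l = L μ N ∘ ((Fin.revPerm.trans (Tuple.sort l)).symm : Equiv.Perm (Fin N)) := by
      rw [hL]; funext i; simp
    refine ⟨(μ, (Fin.revPerm.trans (Tuple.sort l)).symm), ?_, hperm.symm⟩
    rw [Finset.mem_coe, Finset.mem_product]
    refine ⟨?_, Finset.mem_univ _⟩
    rw [mem_ydFin]
    show μ.card = m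
    have h4 := L_sum μ N hμ
    have h3 : ∑ i, L μ N i = M := by
      rw [← hsum]
      conv_rhs => rw [hperm]
      exact (Equiv.sum_comp _ (L μ N)).symm
    omega

end Pool.Agent.MP_67fd2b_co
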