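import Mathlib
import Pool.Agent.MP_67fd2b_co.SumYD

namespace Pool.Agent.MP_67fd2b_co

open Finset Polynomial

theorem G_comp_perm {K : Type*} [Field K] {N : ℕ} (c d : K) (l : Fin N → ℕ)
    (σ : Equiv.Perm (Fin N)) :
    G c (l ∘ σ) * G d (l ∘ σ) = G c l * G d l := by
  induction σ using Equiv.Perm.swap_induction_on' with
  | one => simp
  | mul_swap f x y hxy ih =>
    have e : l ∘ (f * Equiv.swap x y : Equiv.Perm (Fin N)) = (l ∘ f) ∘ Equiv.swap x y := by
      funext i; simp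
    rw [e, G_anti c _ x y hxy, G_anti d _ x y hxy, neg_mul_neg, ih]

theorem W_mul_W (z : ℚ) (μ : YoungDiagram) :
    W z μ * W (-z) μ = (weight cSp μ).eval (-z ^ 2) := by
  unfold W weight
  rw [← Finset.prod_mul_distrib, Polynomial.eval_prod]
  refine Finset.prod_congr rfl fun c _ => ?_
  simp only [Polynomial.eval_mul, Polynomial.eval_add, Polynomial.eval_C, Polynomial.eval_X]
  rw [div_mul_div_comm, div_eq_mul_inv]
  ring

theorem pr_eq (z : ℚ) (hz : ∀ n : ℤ, z ≠ n) (N m : ℕ) (hm : m ≤ N) (M : ℕ)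
    (hM : 2 * M = 2 * m + N * (N - 1)) :
    pr M (G (z + 2 - 2 * N) : (Fin N → ℕ) → ℚ) (G (-z + 2 - 2 * N))
      = ((N.factorial : ℚ) * KK z N * KK (-z) N) *
        ∑ μ ∈ ydFin m, (weight cSp μ).eval (-z ^ 2) := by
  have hz' : ∀ n : ℤ, -z ≠ n := by
    intro n h
    apply hz (-n)
    push_cast; linear_combination -h
  unfold pr
  rw [sum_tuples hm M hM (fun l => G (z + 2 - 2 * N) l * G (-z + 2 - 2 * N) l)
    (fun l σ => G_comp_perm _ _ l σ)
    (fun l hl => by rw [(G_anti (z + 2 - 2 * N)).zero hl, zero_mul])]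
  rw [mul_assoc, mul_assoc]
  congr 1
  rw [Finset.mul_sum, Finset.mul_sum]
  refine Finset.sum_congr rfl fun μ hμ => ?_
  have hc : μ.colLen 0 ≤ N := by
    rw [mem_ydFin] at hμ
    have := colLen_le_card μ 0
    omega
  rw [← W_eq_G z hz N μ hc, ← W_eq_G (-z) hz' N μ hc, ← W_mul_W]
  ring

theorem rec_eval (z : ℚ) (hz : ∀ n : ℤ, z ≠ n) (m : ℕ) :
    (m : ℚ) * ∑ μ ∈ ydFin m, (weight cSp μ).eval (-z ^ 2)
      = ∑ n ∈ Icc 1 m, rho (-z ^ 2) n * ∑ μ ∈ ydFin (m - n), (weight cSp μ).eval (-z ^ 2) := by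
  have heven : 2 * (m * (m - 1) / 2) = m * (m - 1) :=
    Nat.mul_div_cancel' (Nat.even_mul_pred_self m).two_dvd
  have hz' : ∀ n : ℤ, -z ≠ n := by
    intro n h
    apply hz (-n)
    push_cast; linear_combination -h
  set M := m * (m - 1) / 2 + m with hMdef
  have h := tuple_rec (N := m) z hz M (by omega)
  rw [pr_eq z hz m m le_rfl M (by omega)] at h
  have hκ : ((m.factorial : ℚ) * KK z m * KK (-z) m) ≠ 0 :=
    mul_ne_zero (mul_ne_zero (Nat.cast_ne_zero.mpr (Nat.factorial_ne_zero m)) (KK_ne_zero z hz m))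
      (KK_ne_zero (-z) hz' m)
  have hsplit : Icc 1 M = Icc 1 m ∪ Ioc m M := by
    ext x; simp only [Finset.mem_Icc, Finset.mem_union, Finset.mem_Ioc]; omega
  have hdisj : Disjoint (Icc 1 m) (Ioc m M) := by
    rw [Finset.disjoint_left]; intro x hx hy
    rw [Finset.mem_Icc] at hx; rw [Finset.mem_Ioc] at hy; omega
  rw [hsplit, Finset.sum_union hdisj] at h
  have h2 : ∑ n ∈ Ioc m M, rho (-z ^ 2) n *
      pr (M - n) (G (z + 2 - 2 * m) : (Fin m → ℕ) → ℚ) (G (-z + 2 - 2 * m)) = 0 := by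
    refine Finset.sum_eq_zero fun n hn => ?_
    rw [Finset.mem_Ioc] at hn
    have : pr (M - n) (G (z + 2 - 2 * m) : (Fin m → ℕ) → ℚ) (G (-z + 2 - 2 * m)) = 0 := by
      unfold pr
      refine Finset.sum_eq_zero fun l hl => ?_
      have hni : ¬ Function.Injective l := by
        intro hinj
        have := level_zero hinj hl
        omega
      rw [(G_anti (z + 2 - 2 * m)).zero hni, zero_mul]
    rw [this, mul_zero]
  have h3 : ∑ n ∈ Icc 1 m, rho (-z ^ 2) n *
      pr (M - n) (G (z + 2 - 2 * m) : (Fin m → ℕ) → ℚ) (G (-z + 2 - 2 * m))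
      = ((m.factorial : ℚ) * KK z m * KK (-z) m) * ∑ n ∈ Icc 1 m, rho (-z ^ 2) n *
        ∑ μ ∈ ydFin (m - n), (weight cSp μ).eval (-z ^ 2) := by
    rw [Finset.mul_sum]
    refine Finset.sum_congr rfl fun n hn => ?_
    rw [Finset.mem_Icc] at hn
    rw [pr_eq z hz m (m - n) (by omega) (M - n) (by omega)]
    ring
  rw [h2, h3, add_zero] at h
  apply mul_left_cancel₀ hκ
  rw [← h]
  have hMc : (M : ℚ) - m * (m - 1) / 2 = m := by
    have : ((2 * M : ℕ) : ℚ) = ((m * (m - 1) + 2 * m : ℕ) : ℚ) := by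
      congr 1; omega
    rcases Nat.eq_zero_or_pos m with h0 | hpos
    · subst h0; simp [hMdef]
    · push_cast [Nat.cast_sub hpos] at this
      linear_combination this / 2
  rw [hMc]; ring

/-- the divisor polynomial in the logarithmic derivative -/
noncomputable def rhoP (n : ℕ) : ℚ[X] :=
  ∑ d ∈ n.divisors, (X * (d : ℚ[X]) + (if d % 4 = 2 then (d : ℚ[X]) else 0))

theorem eval_rhoP (t : ℚ) (n : ℕ) : (rhoP n).eval t = rho t n := by
  unfold rhoP rho
  rw [Polynomial.eval_finsetSum]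
  refine Finset.sum_congr rfl fun d _ => ?_
  rw [Polynomial.eval_add, Polynomial.eval_mul, Polynomial.eval_X, Polynomial.eval_natCast]
  split_ifs <;> simp

/-- the coefficient of `x^m` in the symplectic series -/
noncomputable def F (m : ℕ) : ℚ[X] := ∑ μ ∈ ydFin m, weight cSp μ

theorem rec_poly (m : ℕ) :
    (m : ℚ[X]) * F m = ∑ n ∈ Icc 1 m, rhoP n * F (m - n) := by
  rw [← sub_eq_zero]
  apply Polynomial.eq_zero_of_infinite_isRoot
  have hinj : Function.Injective (fun n : ℕ => (-((n : ℚ) + 1 / 2) ^ 2)) := by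
    intro a b hab
    simp only [neg_inj] at hab
    have ha : (0 : ℚ) ≤ (a : ℚ) + 1 / 2 := by positivity
    have hb : (0 : ℚ) ≤ (b : ℚ) + 1 / 2 := by positivity
    have := (sq_eq_sq₀ ha hb).mp hab
    have h2 : (a : ℚ) = b := by linear_combination this
    exact_mod_cast h2
  refine Set.Infinite.mono ?_ (Set.infinite_range_of_injective hinj)
  rintro _ ⟨n, rfl⟩
  have hz : ∀ k : ℤ, ((n : ℚ) + 1 / 2) ≠ k := by
    intro k hk
    have : (2 * n + 1 : ℤ) = 2 * k := by
      have h2 : ((2 * n + 1 : ℤ) : ℚ) = ((2 * k : ℤ) : ℚ) := by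
        push_cast; linear_combination 2 * hk
      exact_mod_cast h2
    omega
  have h := rec_eval ((n : ℚ) + 1 / 2) hz m
  simp only [Set.mem_ofPred_eq, Polynomial.IsRoot.def, Polynomial.eval_sub, Polynomial.eval_mul,
    Polynomial.eval_natCast, Polynomial.eval_finsetSum, eval_rhoP, F]
  rw [h]; ring

end Pool.Agent.MP_67fd2b_co
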