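import Mathlib
import Pool.Agent.MP_67fd2b_co.RecPoly

namespace Pool.Agent.MP_67fd2b_co

open Finset Polynomial

/-- `x d/dx` on power series -/
noncomputable def D' {R : Type*} [CommRing R] (f : PowerSeries R) : PowerSeries R :=
  PowerSeries.X * PowerSeries.derivative R f

theorem coeff_D' {R : Type*} [CommRing R] (f : PowerSeries R) (n : ℕ) :
    PowerSeries.coeff n (D' f) = (n : R) * PowerSeries.coeff n f := by
  unfold D'
  rcases n with _ | n
  · rw [PowerSeries.coeff_zero_X_mul]; simp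
  · rw [PowerSeries.coeff_succ_X_mul, PowerSeries.coeff_derivative]
    push_cast; ring

theorem D'_mul {R : Type*} [CommRing R] (f g : PowerSeries R) : D' (f * g) = D' f * g + f * D' g := by
  unfold D'
  rw [Derivation.leibniz]
  simp only [smul_eq_mul]; ring

/-- `x d/dx` on power series over `ℚ[t]` -/
noncomputable def D (f : PowerSeries ℚ[X]) : PowerSeries ℚ[X] := D' f

theorem coeff_D (f : PowerSeries ℚ[X]) (n : ℕ) :
    PowerSeries.coeff n (D f) = (n : ℚ[X]) * PowerSeries.coeff n f := coeff_D' f n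

theorem D_mul (f g : PowerSeries ℚ[X]) : D (f * g) = D f * g + f * D g := D'_mul f g

/-- `∑_{m ≥ 1} x^(k m)` -/
noncomputable def geo (k : ℕ) : PowerSeries ℚ[X] :=
  PowerSeries.mk fun n => if k ∣ n ∧ n ≠ 0 then 1 else 0

theorem geo_mul (k : ℕ) (hk : 0 < k) :
    (1 - (PowerSeries.X : PowerSeries ℚ[X]) ^ k) * geo k = PowerSeries.X ^ k := by
  ext1 n
  rw [sub_mul, one_mul, map_sub, PowerSeries.coeff_X_pow_mul', PowerSeries.coeff_X_pow]
  unfold geo
  rw [PowerSeries.coeff_mk]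
  by_cases h : k ≤ n
  · obtain ⟨m, rfl⟩ := Nat.exists_eq_add_of_le' h
    rw [if_pos h, PowerSeries.coeff_mk, Nat.add_sub_cancel]
    rcases Nat.eq_zero_or_pos m with rfl | hm
    · simp [hk.ne']
    · have h1 : k ∣ m + k ↔ k ∣ m := Nat.dvd_add_self_right
      have h2 : m + k ≠ k := by omega
      simp only [h1, h2, if_false]
      simp [hm.ne']
  · have h1 : ¬ (k ∣ n ∧ n ≠ 0) := by
      rintro ⟨h2, h3⟩
      exact h (Nat.le_of_dvd (Nat.pos_of_ne_zero h3) h2)
    have h2 : n ≠ k := by omega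
    rw [if_neg h1, if_neg h, if_neg h2]; simp

theorem one_sub_ne (k : ℕ) (hk : 0 < k) : (1 - (PowerSeries.X : PowerSeries ℚ[X]) ^ k) ≠ 0 := by
  intro h
  have := congrArg (PowerSeries.coeff 0) h
  rw [map_sub, PowerSeries.coeff_X_pow] at this
  simp [hk.ne] at this

theorem D_one_sub (k : ℕ) (hk : 0 < k) :
    D (1 - (PowerSeries.X : PowerSeries ℚ[X]) ^ k)
      = - ((k : PowerSeries ℚ[X]) * geo k) * (1 - PowerSeries.X ^ k) := by
  have h1 : D (1 - (PowerSeries.X : PowerSeries ℚ[X]) ^ k) = - ((k : PowerSeries ℚ[X]) * PowerSeries.X ^ k) := by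
    ext1 n
    rw [coeff_D, map_sub, map_neg, PowerSeries.coeff_X_pow, PowerSeries.coeff_one]
    have : (k : PowerSeries ℚ[X]) = PowerSeries.C (k : ℚ[X]) := by simp
    rw [this, PowerSeries.coeff_C_mul, PowerSeries.coeff_X_pow]
    by_cases h0 : n = 0
    · subst h0; simp [hk.ne]
    · by_cases hk' : n = k
      · subst hk'; simp [h0]
      · simp [h0, hk']
  rw [h1]
  linear_combination (k : PowerSeries ℚ[X]) * (geo_mul k hk)

theorem binom_rec (r : ℕ) :
    ((r : ℚ[X]) + 1) * binomPoly (r + 1) = (X - (r : ℚ[X])) * binomPoly r := by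
  unfold binomPoly
  rw [Finset.prod_range_succ, Nat.factorial_succ]
  have h1 : ((r : ℚ[X]) + 1) * C ((((r + 1) * r.factorial : ℕ) : ℚ)⁻¹) = C ((r.factorial : ℚ)⁻¹) := by
    have : ((r : ℚ[X]) + 1) = C ((r : ℚ) + 1) := by simp
    rw [this, ← C_mul]
    congr 1
    have h2 : (r.factorial : ℚ) ≠ 0 := Nat.cast_ne_zero.mpr (Nat.factorial_ne_zero r)
    have h3 : (r : ℚ) + 1 ≠ 0 := by positivity
    push_cast
    field_simp
  have h4 : (C (r : ℚ) : ℚ[X]) = (r : ℚ[X]) := by simp
  rw [h4]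
  linear_combination ((∏ i ∈ range r, (X - C (i : ℚ))) * (X - (r : ℚ[X]))) * h1

theorem D_oneSubPow (j : ℕ) (hj : 0 < j) :
    D (oneSubPow j) = - (PowerSeries.C (X * (j : ℚ[X])) * geo j) * oneSubPow j := by
  have key : (1 - (PowerSeries.X : PowerSeries ℚ[X]) ^ j) * D (oneSubPow j)
      = - (PowerSeries.C (X * (j : ℚ[X])) * (PowerSeries.X ^ j * oneSubPow j)) := by
    ext1 n
    rw [sub_mul, one_mul, map_sub, PowerSeries.coeff_X_pow_mul', map_neg, PowerSeries.coeff_C_mul,
      PowerSeries.coeff_X_pow_mul']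
    by_cases h : j ≤ n
    · obtain ⟨m, rfl⟩ := Nat.exists_eq_add_of_le' h
      rw [if_pos h, if_pos h, coeff_D, coeff_D, Nat.add_sub_cancel]
      unfold oneSubPow
      rw [PowerSeries.coeff_mk, PowerSeries.coeff_mk]
      have h1 : j ∣ m + j ↔ j ∣ m := Nat.dvd_add_self_right
      by_cases hd : j ∣ m
      · obtain ⟨r, rfl⟩ := hd
        rw [if_pos (h1.mpr (Dvd.intro _ rfl)), if_pos (Dvd.intro _ rfl),
          show j * r + j = j * (r + 1) by ring, Nat.mul_div_cancel_left _ hj,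
          Nat.mul_div_cancel_left _ hj]
        have hb := binom_rec r
        push_cast
        rw [pow_succ]
        linear_combination (-(j : ℚ[X]) * (-1) ^ r) * hb
      · rw [if_neg (fun h => hd (h1.mp h)), if_neg hd]; simp
    · rw [if_neg h, if_neg h, coeff_D]
      unfold oneSubPow
      rw [PowerSeries.coeff_mk]
      by_cases hd : j ∣ n
      · have : n = 0 := by
          rcases Nat.eq_zero_or_pos n with h0 | h0
          · exact h0
          · exact absurd (Nat.le_of_dvd h0 hd) h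
        subst this; simp
      · rw [if_neg hd]; simp
  apply mul_left_cancel₀ (one_sub_ne j hj)
  rw [key]
  linear_combination (PowerSeries.C (X * (j : ℚ[X])) * oneSubPow j) * (geo_mul j hj)

/-- the `j`-th factor with `j = i + 1` -/
noncomputable def fac (i : ℕ) : PowerSeries ℚ[X] :=
  (1 - (PowerSeries.X : PowerSeries ℚ[X]) ^ (4 * (i + 1) - 2)) * oneSubPow (i + 1)

/-- minus its logarithmic derivative -/
noncomputable def rfac (i : ℕ) : PowerSeries ℚ[X] :=
  ((4 * (i + 1) - 2 : ℕ) : PowerSeries ℚ[X]) * geo (4 * (i + 1) - 2) +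
    PowerSeries.C (X * ((i + 1 : ℕ) : ℚ[X])) * geo (i + 1)

theorem D_fac (i : ℕ) : D (fac i) = - rfac i * fac i := by
  unfold fac rfac
  rw [D_mul, D_one_sub _ (by omega), D_oneSubPow _ (Nat.succ_pos i)]
  ring

theorem D_one : D 1 = 0 := by
  ext1 n
  rw [coeff_D, PowerSeries.coeff_one]
  by_cases h : n = 0
  · subst h; simp
  · simp [h]

theorem D_prod (s : Finset ℕ) : D (∏ i ∈ s, fac i) = - (∑ i ∈ s, rfac i) * ∏ i ∈ s, fac i := by
  induction s using Finset.induction_on with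
  | empty => simp [D_one]
  | insert a s ha ih =>
    rw [Finset.prod_insert ha, Finset.sum_insert ha, D_mul, ih, D_fac]
    ring

theorem coeff_rfac (i n : ℕ) : PowerSeries.coeff n (rfac i) =
    (if (4 * (i + 1) - 2) ∣ n ∧ n ≠ 0 then ((4 * (i + 1) - 2 : ℕ) : ℚ[X]) else 0) +
    (if (i + 1) ∣ n ∧ n ≠ 0 then X * ((i + 1 : ℕ) : ℚ[X]) else 0) := by
  unfold rfac geo
  rw [map_add, PowerSeries.coeff_C_mul, PowerSeries.coeff_mk]
  have : (((4 * (i + 1) - 2 : ℕ)) : PowerSeries ℚ[X])
      = PowerSeries.C (((4 * (i + 1) - 2 : ℕ)) : ℚ[X]) := by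
    simp only [map_natCast]
  rw [this, PowerSeries.coeff_C_mul, PowerSeries.coeff_mk]
  split_ifs <;> simp

theorem coeff_sum_rfac (s : Finset ℕ) (d n : ℕ) (hs : range d ⊆ s) (hn : n ≤ d) :
    PowerSeries.coeff n (∑ i ∈ s, rfac i) = rhoP n := by
  rcases Nat.eq_zero_or_pos n with h0 | hpos
  · subst h0
    rw [map_sum]
    simp [coeff_rfac, rhoP]
  rw [map_sum]
  simp only [coeff_rfac]
  rw [Finset.sum_add_distrib]
  unfold rhoP
  rw [Finset.sum_add_distrib, add_comm]
  congr 1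
  · rw [← Finset.sum_filter]
    refine Finset.sum_nbij' (fun i => i + 1) (fun k => k - 1) ?_ ?_ ?_ ?_ ?_
    · intro i hi
      rw [Finset.mem_filter] at hi
      rw [Nat.mem_divisors]; exact ⟨hi.2.1, hi.2.2⟩
    · intro k hk
      rw [Nat.mem_divisors] at hk
      have h1 := Nat.pos_of_dvd_of_pos hk.1 hpos
      have h2 := Nat.le_of_dvd hpos hk.1
      rw [Finset.mem_filter, Nat.sub_add_cancel h1]
      exact ⟨hs (Finset.mem_range.mpr (by omega)), hk.1, hk.2⟩
    · intro i _; simp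
    · intro k hk
      rw [Nat.mem_divisors] at hk
      have h1 := Nat.pos_of_dvd_of_pos hk.1 hpos
      exact Nat.sub_add_cancel h1
    · intro i _; rfl
  · rw [← Finset.sum_filter, ← Finset.sum_filter]
    refine Finset.sum_nbij' (fun i => 4 * (i + 1) - 2) (fun k => (k + 2) / 4 - 1) ?_ ?_ ?_ ?_ ?_
    · intro i hi
      rw [Finset.mem_filter] at hi
      rw [Finset.mem_filter, Nat.mem_divisors]
      exact ⟨⟨hi.2.1, hi.2.2⟩, by omega⟩
    · intro k hk
      rw [Finset.mem_filter, Nat.mem_divisors] at hk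
      have h2 := Nat.le_of_dvd hpos hk.1.1
      rw [Finset.mem_filter]
      have h3 : 4 * ((k + 2) / 4 - 1 + 1) - 2 = k := by omega
      rw [h3]
      exact ⟨hs (Finset.mem_range.mpr (by omega)), hk.1.1, hk.1.2⟩
    · intro i _
      show (4 * (i + 1) - 2 + 2) / 4 - 1 = i
      omega
    · intro k hk
      rw [Finset.mem_filter] at hk
      show 4 * ((k + 2) / 4 - 1 + 1) - 2 = k
      omega
    · intro i _; rfl

end Pool.Agent.MP_67fd2b_co
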