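import Mathlib
import Pool.Agent.MP_67fd2b_co.Prod

namespace Pool.Agent.MP_67fd2b_co

open Finset Polynomial

theorem genSeries_coeff (cont : YoungDiagram → ℕ × ℕ → ℤ) (n : ℕ) :
    PowerSeries.coeff n (genSeries cont) = ∑ μ ∈ ydFin n, weight cont μ := by
  unfold genSeries
  rw [PowerSeries.coeff_mk, finsum_mem_eq_finite_toFinset_sum _ (finite_yd n)]
  rfl

theorem genSeries_coeff_zero (cont : YoungDiagram → ℕ × ℕ → ℤ) :
    PowerSeries.coeff 0 (genSeries cont) = 1 := by
  rw [genSeries_coeff]
  have : ydFin 0 = {⊥} := by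
    ext μ
    rw [mem_ydFin, Finset.mem_singleton]
    constructor
    · intro h
      apply YoungDiagram.ext
      rw [YoungDiagram.cells_bot]
      exact Finset.card_eq_zero.mp h
    · intro h
      subst h
      simp [YoungDiagram.card]
  rw [this, Finset.sum_singleton]
  unfold weight
  rw [YoungDiagram.cells_bot, Finset.prod_empty]

theorem D_genSeries : D (genSeries cSp) = PowerSeries.mk rhoP * genSeries cSp := by
  ext1 m
  rw [coeff_D, PowerSeries.coeff_mul, Finset.Nat.sum_antidiagonal_eq_sum_range_succ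
    (fun i j => PowerSeries.coeff i (PowerSeries.mk rhoP) * PowerSeries.coeff j (genSeries cSp))]
  rw [Finset.sum_range_succ']
  have h0 : PowerSeries.coeff 0 (PowerSeries.mk rhoP) = 0 := by
    rw [PowerSeries.coeff_mk]; simp [rhoP]
  rw [h0, zero_mul, add_zero]
  have h := rec_poly m
  have hF : ∀ k, PowerSeries.coeff k (genSeries cSp) = F k := fun k => genSeries_coeff cSp k
  simp only [hF, PowerSeries.coeff_mk]
  rw [h, Finset.range_eq_Ico, Finset.sum_Ico_add' (fun n => rhoP n * F (m - n)) 0 m 1]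
  refine Finset.sum_congr ?_ fun _ _ => rfl
  ext x; simp only [Finset.mem_Icc, Finset.mem_Ico]; omega

theorem coeff_oneSubPow_zero (j : ℕ) : PowerSeries.coeff 0 (oneSubPow j) = 1 := by
  unfold oneSubPow
  rw [PowerSeries.coeff_mk, if_pos (dvd_zero j)]
  simp [binomPoly]

theorem coeff_fac_zero (i : ℕ) : PowerSeries.coeff 0 (fac i) = 1 := by
  unfold fac
  rw [PowerSeries.coeff_mul]
  rw [Finset.Nat.antidiagonal_zero, Finset.sum_singleton]
  rw [coeff_oneSubPow_zero, map_sub, PowerSeries.coeff_X_pow,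
    if_neg (show ¬ (0 = 4 * (i + 1) - 2) by omega)]
  simp

theorem coeff_prod_fac_zero (s : Finset ℕ) : PowerSeries.coeff 0 (∏ i ∈ s, fac i) = 1 := by
  rw [PowerSeries.coeff_zero_eq_constantCoeff_apply, map_prod]
  refine Finset.prod_eq_one fun i _ => ?_
  rw [← PowerSeries.coeff_zero_eq_constantCoeff_apply, coeff_fac_zero]

/-- truncated form of the product formula -/
theorem coeff_mul_prod (s : Finset ℕ) (d : ℕ) (hs : range d ⊆ s) :
    ∀ n ≤ d, PowerSeries.coeff n (genSeries cSp * ∏ i ∈ s, fac i) = if n = 0 then 1 else 0 := by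
  intro n hn
  by_cases h0 : n = 0
  · subst h0
    rw [if_pos rfl, PowerSeries.coeff_mul, Finset.Nat.antidiagonal_zero, Finset.sum_singleton]
    rw [genSeries_coeff_zero, coeff_prod_fac_zero, one_mul]
  · rw [if_neg h0]
    have hD : D (genSeries cSp * ∏ i ∈ s, fac i)
        = (PowerSeries.mk rhoP - ∑ i ∈ s, rfac i) * (genSeries cSp * ∏ i ∈ s, fac i) := by
      rw [D_mul, D_genSeries, D_prod]; ring
    have h := coeff_D (genSeries cSp * ∏ i ∈ s, fac i) n
    rw [hD, PowerSeries.coeff_mul] at h
    have hz : ∑ p ∈ antidiagonal n, PowerSeries.coeff p.1 (PowerSeries.mk rhoP - ∑ i ∈ s, rfac i) *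
        PowerSeries.coeff p.2 (genSeries cSp * ∏ i ∈ s, fac i) = 0 := by
      refine Finset.sum_eq_zero fun p hp => ?_
      have hp' := Finset.HasAntidiagonal.mem_antidiagonal.mp hp
      rw [map_sub, PowerSeries.coeff_mk, coeff_sum_rfac s d p.1 hs (by omega), sub_self, zero_mul]
    rw [hz] at h
    rcases mul_eq_zero.mp h.symm with h1 | h1
    · exact absurd h1 (Nat.cast_ne_zero.mpr h0)
    · exact h1

/-- the inverse of the symplectic series -/
noncomputable def Pinf : PowerSeries ℚ[X] := PowerSeries.invOfUnit (genSeries cSp) 1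

theorem genSeries_mul_Pinf : genSeries cSp * Pinf = 1 := by
  unfold Pinf
  apply PowerSeries.mul_invOfUnit
  rw [← PowerSeries.coeff_zero_eq_constantCoeff_apply, genSeries_coeff_zero]
  simp

theorem coeff_prod_eq (s : Finset ℕ) (d : ℕ) (hs : range d ⊆ s) :
    PowerSeries.coeff d (∏ i ∈ s, fac i) = PowerSeries.coeff d Pinf := by
  have h1 : ∏ i ∈ s, fac i = Pinf * (genSeries cSp * ∏ i ∈ s, fac i) := by
    rw [← mul_assoc, mul_comm Pinf, genSeries_mul_Pinf, one_mul]
  rw [h1, PowerSeries.coeff_mul]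
  rw [Finset.sum_eq_single (d, 0)]
  · rw [coeff_mul_prod s d hs 0 (Nat.zero_le _)]; simp
  · rintro ⟨a, b⟩ hp hne
    have hp' := Finset.HasAntidiagonal.mem_antidiagonal.mp hp
    simp only at hp'
    have hb : b ≠ 0 := by
      intro hb
      apply hne
      subst hb
      simp only [add_zero] at hp'
      rw [hp']
    rw [coeff_mul_prod s d hs b (by omega), if_neg hb, mul_zero]
  · intro h
    exact absurd (Finset.HasAntidiagonal.mem_antidiagonal.mpr (by simp)) h

open scoped PowerSeries.WithPiTopology in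
theorem hasProd_fac [TopologicalSpace ℚ[X]] : HasProd fac Pinf := by
  rw [HasProd, PowerSeries.WithPiTopology.tendsto_iff_coeff_tendsto]
  refine fun d ↦ tendsto_atTop_of_eventually_const (i₀ := range d) (fun s (hs : s ≥ range d) ↦ ?_)
  exact coeff_prod_eq s d hs

/-! ### the orthogonal case -/

theorem hookLen_transpose (μ : YoungDiagram) (c : ℕ × ℕ) :
    hookLen μ.transpose c.swap = hookLen μ c := by
  unfold hookLen
  simp only [YoungDiagram.rowLen_transpose, YoungDiagram.colLen_transpose, Prod.fst_swap,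
    Prod.snd_swap]
  ring

theorem cSp_transpose (μ : YoungDiagram) (c : ℕ × ℕ) :
    cSp μ.transpose c.swap = - cO μ c := by
  unfold cSp cO
  simp only [YoungDiagram.rowLen_transpose, YoungDiagram.colLen_transpose, Prod.fst_swap,
    Prod.snd_swap]
  by_cases h : c.2 ≤ c.1
  · rw [if_neg (not_lt.mpr h), if_pos h]; ring
  · rw [if_pos (not_le.mp h), if_neg h]; ring

theorem weight_transpose (μ : YoungDiagram) : weight cSp μ.transpose = weight cO μ := by
  unfold weight
  symm
  refine Finset.prod_nbij' Prod.swap Prod.swap ?_ ?_ ?_ ?_ ?_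
  · intro c hc
    rw [YoungDiagram.mem_cells] at hc ⊢
    rw [YoungDiagram.mem_transpose]; simpa using hc
  · intro c hc
    rw [YoungDiagram.mem_cells] at hc ⊢
    rw [YoungDiagram.mem_transpose] at hc; exact hc
  · intro c _; simp
  · intro c _; simp
  · intro c _
    rw [hookLen_transpose, cSp_transpose]
    push_cast
    rw [neg_sq]

theorem card_transpose (μ : YoungDiagram) : μ.transpose.card = μ.card := by
  unfold YoungDiagram.card YoungDiagram.transpose
  simp

theorem genSeries_cO : genSeries cO = genSeries cSp := by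
  ext1 n
  rw [genSeries_coeff, genSeries_coeff]
  refine Finset.sum_nbij' YoungDiagram.transpose YoungDiagram.transpose ?_ ?_ ?_ ?_ ?_
  · intro μ hμ; rw [mem_ydFin] at hμ ⊢; rw [card_transpose, hμ]
  · intro μ hμ; rw [mem_ydFin] at hμ ⊢; rw [card_transpose, hμ]
  · intro μ _; simp
  · intro μ _; simp
  · intro μ _; rw [weight_transpose]

end Pool.Agent.MP_67fd2b_co
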